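import Pool.Agent.UN5.NRT

/-!
# UN5: no reflex pairs of ordinary surfaces over the fields with `49`, `64`, `81`, `125` elements (helper88)
-/

set_option autoImplicit false

namespace Pool.Agent.UN5.NRX

open Pool.Agent.GT2 Pool.Agent.GT3 Pool.Agent.GT4

set_option maxRecDepth 100000 in
theorem r49 : (List.range 29).all (row TB 49 7 49 97518889569047 29) = true := by decide +kernel

theorem nr49 {A B A₁ B₁ : ℤ} (hW : W2 49 A B) (hW₁ : W2 49 A₁ B₁) (ho : ¬ ((7 : ℕ) : ℤ) ∣ B)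
    (ho₁ : ¬ ((7 : ℕ) : ℤ) ∣ B₁) : ¬ Rx 49 A B A₁ B₁ :=
  no_rx tb_mem (M := 49) (F := 97518889569047) (n := 29) (by norm_num) (by norm_num) (by norm_num)
    ⟨2, by norm_num⟩ (by norm_num) (by norm_num) (by decide +kernel) (by norm_num)
    (fun a ha => List.all_eq_true.1 r49 a (List.mem_range.2 ha)) hW hW₁ ho ho₁

set_option maxRecDepth 100000 in
theorem r64 : (List.range 33).all (row TB 64 2 128 2668882576834431627811302641479385619 33) = true := by decide +kernel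

theorem nr64 {A B A₁ B₁ : ℤ} (hW : W2 64 A B) (hW₁ : W2 64 A₁ B₁) (ho : ¬ ((2 : ℕ) : ℤ) ∣ B)
    (ho₁ : ¬ ((2 : ℕ) : ℤ) ∣ B₁) : ¬ Rx 64 A B A₁ B₁ :=
  no_rx tb_mem (M := 128) (F := 2668882576834431627811302641479385619) (n := 33) (by norm_num) (by norm_num) (by norm_num)
    ⟨7, by norm_num⟩ (by norm_num) (by norm_num) (by decide +kernel) (by norm_num)
    (fun a ha => List.all_eq_true.1 r64 a (List.mem_range.2 ha)) hW hW₁ ho ho₁

set_option maxRecDepth 100000 in
theorem r81 : (List.range 37).all (row TB 81 3 81 690823977437607959799443 37) = true := by decide +kernel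

theorem nr81 {A B A₁ B₁ : ℤ} (hW : W2 81 A B) (hW₁ : W2 81 A₁ B₁) (ho : ¬ ((3 : ℕ) : ℤ) ∣ B)
    (ho₁ : ¬ ((3 : ℕ) : ℤ) ∣ B₁) : ¬ Rx 81 A B A₁ B₁ :=
  no_rx tb_mem (M := 81) (F := 690823977437607959799443) (n := 37) (by norm_num) (by norm_num) (by norm_num)
    ⟨4, by norm_num⟩ (by norm_num) (by norm_num) (by decide +kernel) (by norm_num)
    (fun a ha => List.all_eq_true.1 r81 a (List.mem_range.2 ha)) hW hW₁ ho ho₁

set_option maxRecDepth 100000 in
theorem r125 : (List.range 45).all (row TB 125 5 125 24697914995783230640893687520010259027 45) = true := by decide +kernel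

theorem nr125 {A B A₁ B₁ : ℤ} (hW : W2 125 A B) (hW₁ : W2 125 A₁ B₁) (ho : ¬ ((5 : ℕ) : ℤ) ∣ B)
    (ho₁ : ¬ ((5 : ℕ) : ℤ) ∣ B₁) : ¬ Rx 125 A B A₁ B₁ :=
  no_rx tb_mem (M := 125) (F := 24697914995783230640893687520010259027) (n := 45) (by norm_num) (by norm_num) (by norm_num)
    ⟨3, by norm_num⟩ (by norm_num) (by norm_num) (by decide +kernel) (by norm_num)
    (fun a ha => List.all_eq_true.1 r125 a (List.mem_range.2 ha)) hW hW₁ ho ho₁

end Pool.Agent.UN5.NRX
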