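import Pool.Agent.UN5.NRT

/-!
# UN5: no reflex pairs of ordinary surfaces over the fields with `512` elements (helper88)
-/

set_option autoImplicit false

namespace Pool.Agent.UN5.NRX

open Pool.Agent.GT2 Pool.Agent.GT3 Pool.Agent.GT4

set_option maxRecDepth 100000 in
theorem r512 : (List.range 91).all (row TB 512 2 128 2668882576834431627811302641479385619 91) = true := by decide +kernel

theorem nr512 {A B A₁ B₁ : ℤ} (hW : W2 512 A B) (hW₁ : W2 512 A₁ B₁) (ho : ¬ ((2 : ℕ) : ℤ) ∣ B)
    (ho₁ : ¬ ((2 : ℕ) : ℤ) ∣ B₁) : ¬ Rx 512 A B A₁ B₁ :=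
  no_rx tb_mem (M := 128) (F := 2668882576834431627811302641479385619) (n := 91) (by norm_num) (by norm_num) (by norm_num)
    ⟨7, by norm_num⟩ (by norm_num) (by norm_num) (by decide +kernel) (by norm_num)
    (fun a ha => List.all_eq_true.1 r512 a (List.mem_range.2 ha)) hW hW₁ ho ho₁

end Pool.Agent.UN5.NRX
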