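import Pool.Agent.UN5.NRZ0
import Pool.Agent.UN5.NRZ1
import Pool.Agent.UN5.NRZ2
import Pool.Agent.UN5.NRZ3
import Pool.Agent.UN5.NRZ4
import Pool.Agent.GT4.Fin

/-!
# UN5: ordinary surfaces over some more fields (helper88)
-/

set_option autoImplicit false

open Polynomial

namespace Pool.Agent.UN5

open AlmostAll Pool.Agent.GT3 Pool.Agent.GT4 Pool.Agent.GT2 NRX

/-- no reflex pairs of ordinary surfaces -/
def NRP (q : ℕ) : Prop := ∀ {A B A₁ B₁ : ℤ}, W2 q A B → W2 q A₁ B₁ → ¬ (q.minFac : ℤ) ∣ B →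
  ¬ (q.minFac : ℤ) ∣ B₁ → ¬ Rx q A B A₁ B₁

theorem w_two {q : ℕ} (hq : 1 ≤ q) {h : ℤ[X]} (hh : h ∈ T2 q) : W2 q (h.coeff 1) (h.coeff 0) :=
  (t_CNV q hq h hh.1).1

/-- the set of the elliptic curves and the ordinary surfaces is good -/
theorem or_good {q : ℕ} (hq : IsPrimePow q) (h : NRP q) : GxP q (All 1 q ∪ OT q) := by
  have key : ∀ f ∈ All 1 q ∪ OT q, f.natDegree = 2 → Gn q (f.coeff 1) (f.coeff 0) →
      ¬ (q.minFac : ℤ) ∣ f.coeff 0 ∧ W2 q (f.coeff 1) (f.coeff 0) := by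
    rintro f (h1 | h1) hd hG
    · exact absurd (h1.1.2.1.symm.trans hd) (by norm_num)
    · refine ⟨?_, w_two hq.one_lt.le h1.1⟩
      rcases h1.2 with h | h | h | h
      · exact h
      · exact absurd h hG.1
      · exact absurd h hG.2.1
      · exact absurd h hG.2.2.1
  have no : ∀ f ∈ All 1 q ∪ OT q, ∀ f' ∈ All 1 q ∪ OT q, ¬ RxP q f f' := by
    intro f hf f' hf' hR
    have k1 := key f hf hR.1 hR.2.2.1
    have k2 := key f' hf' hR.2.1 hR.2.2.2.1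
    exact h k1.2 k2.2 k1.1 k2.1 hR.2.2
  exact ⟨fun f hf f' hf' _ => no f hf f' hf', fun f hf f' hf' f'' hf'' hR =>
    absurd hR (no f hf f' hf')⟩

/-- for `q ≡ 3` modulo `4` the set of all surfaces is good if there are no reflex pairs of
ordinary surfaces -/
theorem all_good {q : ℕ} (hq : IsPrimePow q) (h4 : q % 4 = 3) (h : NRP q) :
    GxP q (All 1 q ∪ T2 q) := by
  have no : ∀ f ∈ All 1 q ∪ T2 q, ∀ f' ∈ All 1 q ∪ T2 q, ¬ RxP q f f' := by
    intro f hf f' hf' hR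
    by_cases hp : (q.minFac : ℤ) ∣ f.coeff 0 ∨ (q.minFac : ℤ) ∣ f'.coeff 0
    · exact GT4.mx3 hq h4 f hf f' hf' hp hR
    · exact h (w_two hq.one_lt.le (mem_two hf hR.1)) (w_two hq.one_lt.le (mem_two hf' hR.2.1))
        (fun hc => hp (Or.inl hc)) (fun hc => hp (Or.inr hc)) hR.2.2
  exact ⟨fun f hf f' hf' _ => no f hf f' hf', fun f hf f' hf' f'' hf'' hR =>
    absurd hR (no f hf f' hf')⟩

theorem mf {p k : ℕ} (hp : p.Prime) (hk : k ≠ 0) : (p ^ k).minFac = p := by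
  rw [Nat.pow_minFac hk, hp.minFac_eq]

theorem nrp {q : ℕ} (h : q = 25 ∨ q = 32 ∨ q = 49 ∨ q = 64 ∨ q = 81 ∨ q = 125 ∨ q = 243 ∨
    q = 256 ∨ q = 512) : NRP q := by
  rcases h with rfl | rfl | rfl | rfl | rfl | rfl | rfl | rfl | rfl
  · intro A B A₁ B₁ h1 h2 h3 h4
    have e : (25 : ℕ).minFac = 5 := mf (p := 5) (k := 2) (by norm_num) (by norm_num)
    rw [e] at h3 h4
    exact nr25 h1 h2 h3 h4
  · intro A B A₁ B₁ h1 h2 h3 h4
    have e : (32 : ℕ).minFac = 2 := mf (p := 2) (k := 5) (by norm_num) (by norm_num)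
    rw [e] at h3 h4
    exact nr32 h1 h2 h3 h4
  · intro A B A₁ B₁ h1 h2 h3 h4
    have e : (49 : ℕ).minFac = 7 := mf (p := 7) (k := 2) (by norm_num) (by norm_num)
    rw [e] at h3 h4
    exact nr49 h1 h2 h3 h4
  · intro A B A₁ B₁ h1 h2 h3 h4
    have e : (64 : ℕ).minFac = 2 := mf (p := 2) (k := 6) (by norm_num) (by norm_num)
    rw [e] at h3 h4
    exact nr64 h1 h2 h3 h4
  · intro A B A₁ B₁ h1 h2 h3 h4
    have e : (81 : ℕ).minFac = 3 := mf (p := 3) (k := 4) (by norm_num) (by norm_num)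
    rw [e] at h3 h4
    exact nr81 h1 h2 h3 h4
  · intro A B A₁ B₁ h1 h2 h3 h4
    have e : (125 : ℕ).minFac = 5 := mf (p := 5) (k := 3) (by norm_num) (by norm_num)
    rw [e] at h3 h4
    exact nr125 h1 h2 h3 h4
  · intro A B A₁ B₁ h1 h2 h3 h4
    have e : (243 : ℕ).minFac = 3 := mf (p := 3) (k := 5) (by norm_num) (by norm_num)
    rw [e] at h3 h4
    exact nr243 h1 h2 h3 h4
  · intro A B A₁ B₁ h1 h2 h3 h4
    have e : (256 : ℕ).minFac = 2 := mf (p := 2) (k := 8) (by norm_num) (by norm_num)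
    rw [e] at h3 h4
    exact nr256 h1 h2 h3 h4
  · intro A B A₁ B₁ h1 h2 h3 h4
    have e : (512 : ℕ).minFac = 2 := mf (p := 2) (k := 9) (by norm_num) (by norm_num)
    rw [e] at h3 h4
    exact nr512 h1 h2 h3 h4

/-- fields over which all surfaces are good -/
theorem gall {q : ℕ} (h : q = 3 ∨ q = 7 ∨ q = 11 ∨ q = 27 ∨ q = 43 ∨ q = 243)
    (hq : IsPrimePow q) : GxP q (All 1 q ∪ T2 q) := by
  by_cases h1 : q = 243
  · exact all_good hq (by rw [h1]) (nrp (by tauto))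
  · exact GT4.gx_of hq (gdall (by tauto))

/-- fields over which the ordinary surfaces are good -/
theorem gor {q : ℕ} (h : q ≤ 16 ∨ q = 25 ∨ q = 32 ∨ q = 49 ∨ q = 64 ∨ q = 81 ∨ q = 125 ∨
    q = 256 ∨ q = 512) (hq : IsPrimePow q) : GxP q (All 1 q ∪ OT q) := by
  by_cases h1 : q ≤ 16
  · exact GT4.gx_of hq (gd16 hq h1)
  · exact or_good hq (nrp (by tauto))

end Pool.Agent.UN5
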