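import Pool.Agent.UN5.Main
import Pool.Agent.UN5.NRF

/-!
# UN5: almost all abelian varieties together with surfaces, final form (helper88)
-/

set_option autoImplicit false

open Polynomial Filter

namespace Pool.Agent.UN5

open AlmostAll Pool.Agent.GT3 Pool.Agent.GT4 Pool.Agent.GT2

theorem low_mem {q : ℕ} {S : Set ℤ[X]} (hF : S ⊆ FL q) (hO : ∀ h ∈ S, h ∈ Ord h.natDegree q)
    {h : ℤ[X]} (hh : h ∈ S) (h2 : h.natDegree ≤ 2) :
    h ∈ All 1 q ∨ (h ∈ T2 q ∧ ¬ (q.minFac : ℤ) ∣ h.coeff 0) := by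
  have h7 := hO h hh
  have h8 : 1 ≤ h.natDegree := (hF hh).1
  by_cases h9 : h.natDegree = 1
  · rw [h9] at h7
    exact Or.inl ⟨h7.1, Or.inl h7.2⟩
  · have h11 : h.natDegree = 2 := by omega
    rw [h11] at h7
    exact Or.inr ⟨⟨h7.1, Or.inl h7.2⟩, h7.2⟩

/-- the case of the non-dihedral surfaces -/
theorem nd_good {q : ℕ} (hq : IsPrimePow q) {S : Set ℤ[X]} (hF : S ⊆ FL q)
    (hO : ∀ h ∈ S, h ∈ Ord h.natDegree q) (hP : Par q (Adm q S)) {N : Set ℤ[X]}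
    (hN : N = ND q ∨ (q % 4 = 3 ∧ N = NO q)) :
    GxP q ({h | h ∈ S ∧ h.natDegree ≤ 2} ∪ (All 1 q ∪ N)) := by
  have hsub : {h | h ∈ S ∧ h.natDegree ≤ 2} ∪ (All 1 q ∪ N) ⊆ All 1 q ∪ T2 q := by
    rintro h (hh | hh | hh)
    · exact (low_mem hF hO hh.1 hh.2).imp id fun h => h.1
    · exact Or.inl hh
    · rcases hN with rfl | ⟨-, rfl⟩
      · exact Or.inr hh.1
      · exact Or.inr hh.1
  have hS2 : {h | h ∈ S ∧ h.natDegree = 2} ⊆ All 1 q ∪ T2 q := by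
    rintro h ⟨h1, h2⟩
    exact hsub (Or.inl ⟨h1, h2.le⟩)
  have hG : GxP q {h | h ∈ S ∧ h.natDegree = 2} :=
    (GT4.crit hq hS2).1 (par_mono hP fun z => adm_mono fun h hh => hh.1)
  have key : ∀ h ∈ {h | h ∈ S ∧ h.natDegree ≤ 2} ∪ (All 1 q ∪ N), h.natDegree = 2 →
      Gn q (h.coeff 1) (h.coeff 0) →
      h ∈ {h | h ∈ S ∧ h.natDegree = 2} ∨ (q % 4 = 3 ∧ (q.minFac : ℤ) ∣ h.coeff 0) := by
    rintro h (hh | hh | hh) hd hg
    · exact Or.inl ⟨hh.1, hd⟩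
    · exact absurd (hh.1.2.1.symm.trans hd) (by norm_num)
    · rcases hN with rfl | ⟨h4, rfl⟩
      · exfalso
        rcases hh.2 with h2 | h2 | h2
        · exact hg.1 h2
        · exact hg.2.1 h2
        · exact hg.2.2.1 h2
      · rcases hh.2 with h2 | h2 | h2 | h2
        · exact Or.inr ⟨h4, h2⟩
        · exact absurd h2 hg.1
        · exact absurd h2 hg.2.1
        · exact absurd h2 hg.2.2.1
  have hord : ∀ h ∈ {h | h ∈ S ∧ h.natDegree = 2}, ¬ (q.minFac : ℤ) ∣ h.coeff 0 :=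
    fun h hh => (hO h hh.1).2
  constructor
  · intro h hh h' hh' hp hR
    by_cases h4 : q % 4 = 3
    · exact GT4.mx3 hq h4 h (hsub hh) h' (hsub hh') hp hR
    · rcases key h hh hR.1 hR.2.2.1 with k | k
      · rcases key h' hh' hR.2.1 hR.2.2.2.1 with k' | k'
        · rcases hp with hp | hp
          · exact hord h k hp
          · exact hord h' k' hp
        · exact h4 k'.1
      · exact h4 k.1
  · intro h hh h' hh' h'' hh'' hR hR'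
    have k : ∀ f ∈ {h | h ∈ S ∧ h.natDegree ≤ 2} ∪ (All 1 q ∪ N), f.natDegree = 2 →
        Gn q (f.coeff 1) (f.coeff 0) →
        (q % 4 = 3 → ¬ (q.minFac : ℤ) ∣ f.coeff 0) → f ∈ {h | h ∈ S ∧ h.natDegree = 2} := by
      intro f hf hd hg hn
      rcases key f hf hd hg with k | k
      · exact k
      · exact absurd k.2 (hn k.1)
    have m : q % 4 = 3 → ∀ f ∈ {h | h ∈ S ∧ h.natDegree ≤ 2} ∪ (All 1 q ∪ N),
        ∀ f' ∈ {h | h ∈ S ∧ h.natDegree ≤ 2} ∪ (All 1 q ∪ N), RxP q f f' →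
        ¬ (q.minFac : ℤ) ∣ f.coeff 0 ∧ ¬ (q.minFac : ℤ) ∣ f'.coeff 0 := fun h4 f hf f' hf' hr =>
      ⟨fun hc => GT4.mx3 hq h4 f (hsub hf) f' (hsub hf') (Or.inl hc) hr,
        fun hc => GT4.mx3 hq h4 f (hsub hf) f' (hsub hf') (Or.inr hc) hr⟩
    exact hG.tp h (k h hh hR.1 hR.2.2.1 fun h4 => (m h4 h hh h' hh' hR).1)
      h' (k h' hh' hR.2.1 hR.2.2.2.1 fun h4 => (m h4 h hh h' hh' hR).2)
      h'' (k h'' hh'' hR'.2.1 hR'.2.2.2.1 fun h4 => (m h4 h hh h'' hh'' hR').2) hR hR'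

/-- almost all abelian varieties together with surfaces -/
theorem fin : ∃ S : ℕ → Set ℤ[X],
    (∀ q, IsPrimePow q → S q ⊆ FL q ∧ Ord 1 q ⊆ S q ∧
      (∀ h ∈ S q, (Om q h).ncard = 2 * h.natDegree) ∧
      (∃ v, Val q v) ∧ (∀ v, Val q v → Cr q v (S q)) ∧
      ∀ N : Set ℤ[X],
        (N = T2 q ∧ (q = 3 ∨ q = 7 ∨ q = 11 ∨ q = 27 ∨ q = 43 ∨ q = 243)) ∨
        (N = OT q ∧ (q ≤ 16 ∨ q = 25 ∨ q = 32 ∨ q = 49 ∨ q = 64 ∨ q = 81 ∨ q = 125 ∨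
          q = 256 ∨ q = 512)) ∨
        (N = NO q ∧ q % 4 = 3) ∨ N = ND q →
        Par q (Adm q (S q ∪ (All 1 q ∪ N))) ∧
        ∀ z, Adm q (S q ∪ (All 1 q ∪ N)) z → ‖z‖ ^ 2 = (q : ℝ)) ∧
    ∀ (g : ℕ) (A : ℕ → Set ℤ[X]), 1 ≤ g →
      (∀ q, IsPrimePow q → Ord g q ⊆ A q ∧ A q ⊆ All g q) →
      Tendsto (fun q : {q : ℕ // IsPrimePow q} => ((S q ∩ A q).ncard : ℝ) / (A q).ncard)
        atTop (nhds 1) := by
  obtain ⟨S, h1, h2⟩ := WAF.set_all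
  refine ⟨S, fun q hq => ?_, fun g A hg hA => WAF.density_all hg (h2 g hg) A hA⟩
  obtain ⟨v, hv⟩ := TJ4.t_EXV q hq
  obtain ⟨hFO, hFL, hO1, hC⟩ := h1 q hq
  have hPar : Par q (Adm q (S q)) :=
    (AlmostAll.arith q v (S q) hq ((Val_iff q v).2 hv) hFL (hC v hv)).1
  have hOrd : ∀ h ∈ S q, h ∈ Ord h.natDegree q := fun h hh => (hFO hh).2.1
  have hcard : ∀ h ∈ S q, (Om q h).ncard = 2 * h.natDegree := fun h hh => (hFO hh).2.2.1
  refine ⟨hFL, hO1, hcard, ⟨v, (Val_iff q v).2 hv⟩,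
    fun w hw => hC w ((Val_iff q w).1 hw), ?_⟩
  intro N hN
  have hNT : N ⊆ T2 q := by
    rcases hN with ⟨rfl, -⟩ | ⟨rfl, -⟩ | ⟨rfl, -⟩ | rfl
    · exact fun h hh => hh
    · exact fun h hh => hh.1
    · exact fun h hh => hh.1
    · exact fun h hh => hh.1
  have hsub : {h | h ∈ S q ∧ h.natDegree ≤ 2} ∪ (All 1 q ∪ N) ⊆ All 1 q ∪ T2 q := by
    rintro h (hh | hh | hh)
    · exact (low_mem hFL hOrd hh.1 hh.2).imp id fun h => h.1
    · exact Or.inl hh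
    · exact Or.inr (hNT hh)
  have hgood : GxP q ({h | h ∈ S q ∧ h.natDegree ≤ 2} ∪ (All 1 q ∪ N)) := by
    rcases hN with ⟨rfl, h⟩ | ⟨rfl, h⟩ | ⟨rfl, h⟩ | rfl
    · exact gx_mono hsub (gall h hq)
    · refine gx_mono ?_ (gor h hq)
      rintro f (hf | hf | hf)
      · exact (low_mem hFL hOrd hf.1 hf.2).imp id fun h => ⟨h.1, Or.inl h.2⟩
      · exact Or.inl hf
      · exact Or.inr hf
    · exact nd_good hq hFL hOrd hPar (Or.inr ⟨h, rfl⟩)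
    · exact nd_good hq hFL hOrd hPar (Or.inl rfl)
  have hdeg2 : ∀ h ∈ All 1 q ∪ T2 q, h ∈ RW h.natDegree q ∧ h.natDegree ≤ 2 := by
    rintro h (h3 | h3)
    · have := h3.1
      rw [this.2.1]
      exact ⟨this, by norm_num⟩
    · have := h3.1
      rw [this.2.1]
      exact ⟨this, le_rfl⟩
  have e : S q ∪ (All 1 q ∪ N) = {h | h ∈ S q ∧ 3 ≤ h.natDegree} ∪
      ({h | h ∈ S q ∧ h.natDegree ≤ 2} ∪ (All 1 q ∪ N)) := by
    ext h
    constructor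
    · rintro (hh | hh)
      · by_cases h3 : 3 ≤ h.natDegree
        · exact Or.inl ⟨hh, h3⟩
        · exact Or.inr (Or.inl ⟨hh, by omega⟩)
      · exact Or.inr (Or.inr hh)
    · rintro (hh | hh | hh)
      · exact Or.inl hh.1
      · exact Or.inl hh.1
      · exact Or.inr hh
  rw [e]
  have hu := union_iff hq ((Val_iff q v).2 hv) (S₁ := {h | h ∈ S q ∧ 3 ≤ h.natDegree})
    (S₂ := {h | h ∈ S q ∧ h.natDegree ≤ 2} ∪ (All 1 q ∪ N))
    (fun h hh => hFL hh.1) (fun h hh => (hdeg2 h (hsub hh)).1) (by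
      intro h hh h' hh'
      rw [hcard h hh.1]
      have h3 := om_card hq.one_lt.le (hdeg2 h' (hsub hh')).1.1
      have h4 := (hdeg2 h' (hsub hh')).2
      have h5 := hh.2
      omega)
  exact ⟨hu.1.2 ⟨cr_mono (fun h hh => hh.1) (hC v hv), (GT4.crit hq hsub).2 hgood⟩, hu.2⟩

end Pool.Agent.UN5
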