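import Pool.Agent.UN5.UNI
import Pool.Agent.TJ4.E14

/-!
# UN5: the criterion `Cr` is exact (helper88)
-/

set_option autoImplicit false

open Polynomial

namespace Pool.Agent.UN5

open Pool.Agent.TJ2 Pool.Agent.TJ3 Pool.Agent.TJ4

/-- the list with `e k` copies of `r k` -/
def rep {n : ℕ} (r : Fin n → ℂ) (e : Fin n → ℕ) : List ℂ :=
  (List.finRange n).flatMap fun k => List.replicate (e k) (r k)

theorem mem_rep {n : ℕ} {r : Fin n → ℂ} {e : Fin n → ℕ} {y : ℂ} (h : y ∈ rep r e) :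
    ∃ k, y = r k := by
  unfold rep at h
  rw [List.mem_flatMap] at h
  obtain ⟨k, -, hk⟩ := h
  exact ⟨k, List.eq_of_mem_replicate hk⟩

theorem prod_rep {n : ℕ} (r : Fin n → ℂ) (e : Fin n → ℕ) :
    (rep r e).prod = ∏ k, r k ^ e k := by
  unfold rep
  rw [List.flatMap_def, List.prod_flatten, List.map_map]
  have h1 : (List.prod ∘ fun k => List.replicate (e k) (r k)) = fun k => r k ^ e k := by
    funext k
    simp [List.prod_replicate]
  rw [h1, ← List.ofFn_eq_map, List.prod_ofFn]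

theorem len_rep {n : ℕ} (r : Fin n → ℂ) (e : Fin n → ℕ) :
    (rep r e).length = ∑ k, e k := by
  unfold rep
  rw [List.length_flatMap]
  simp only [List.length_replicate]
  rw [← List.ofFn_eq_map, List.sum_ofFn]

/-- data of an exotic class contradict the partner property -/
theorem not_par {q : ℕ} (hq : 1 ≤ q) {S : Set ℤ[X]} (hD : HasData q S)
    (hP : AlmostAll.Par q (AlmostAll.Adm q S)) : False := by
  obtain ⟨n, h, r, e, N, h1, ⟨k₀, hk₀⟩, hN, h2, h3, h4⟩ := hD
  obtain ⟨ι⟩ := JD_emb ℂ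
  have hq0 : (q : ℂ) ≠ 0 := Nat.cast_ne_zero.2 (by omega)
  have hadm : ∀ k, AlmostAll.Adm q S (ι (r k)) := by
    intro k
    refine ⟨1, le_rfl, Or.inr ⟨h k, (h1 k).1, ι (r k), (map_ne_zero ι).2 (h1 k).2.1, ?_, rfl⟩⟩
    have h5 := congrArg ι (h1 k).2.2
    rw [map_zero, Polynomial.aeval_def, Polynomial.hom_eval₂] at h5
    rw [Polynomial.aeval_def]
    have e1 : ι.comp (algebraMap ℤ Qb) = algebraMap ℤ ℂ := RingHom.ext_int _ _
    rwa [e1, map_add, map_div₀, map_natCast] at h5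
  -- the list
  obtain ⟨L, hL⟩ : ∃ L : List ℂ, L = rep (fun k => ι (r k)) e := ⟨_, rfl⟩
  have hmem : ∀ y ∈ L, ∃ k, y = ι (r k) := fun y hy => mem_rep (hL ▸ hy)
  have hprod : L.prod ^ (2 * N) = ((q : ℂ) ^ L.length) ^ N := by
    have h5 := congrArg ι h2
    rw [map_pow, map_pow, map_prod, map_prod] at h5
    simp only [map_pow, map_div₀, map_natCast] at h5
    have h6 : L.prod = ∏ k, ι (r k) ^ e k := by rw [hL, prod_rep]
    have h7 : (∏ k, ι (r k) ^ e k) * (∏ k, ((q : ℂ) / ι (r k)) ^ e k) = (q : ℂ) ^ L.length := by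
      rw [← Finset.prod_mul_distrib, hL, len_rep, ← Finset.prod_pow_eq_pow_sum]
      refine Finset.prod_congr rfl fun k _ => ?_
      have h8 : ι (r k) ≠ 0 := (map_ne_zero ι).2 (h1 k).2.1
      rw [← mul_pow, mul_div_cancel₀ _ h8]
    calc L.prod ^ (2 * N) = (∏ k, ι (r k) ^ e k) ^ N * (∏ k, ι (r k) ^ e k) ^ N := by
          rw [h6]; ring
      _ = (∏ k, ι (r k) ^ e k) ^ N * (∏ k, ((q : ℂ) / ι (r k)) ^ e k) ^ N := by rw [← h5]
      _ = ((q : ℂ) ^ L.length) ^ N := by rw [← mul_pow, h7]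
  have hpart : ∀ k k', ∀ M : ℕ, 1 ≤ M → (ι (r k) * ι (r k')) ^ M ≠ (q : ℂ) ^ M := by
    intro k k' M hM hc
    refine h4 k k' M hM ?_
    apply ι.injective
    rw [map_pow, map_mul, map_pow, map_natCast, hc]
  have hLadm : ∀ y ∈ L, AlmostAll.Adm q S y := by
    intro y hy
    obtain ⟨k, rfl⟩ := hmem y hy
    exact hadm k
  by_cases hev : L.length % 2 = 0
  · -- even: one member and the rest
    have hne : L ≠ [] := by
      intro h0
      have h5 := congrArg List.length h0
      rw [hL, len_rep, List.length_nil] at h5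
      have h6 := (Finset.sum_eq_zero_iff.1 h5) k₀ (Finset.mem_univ _)
      omega
    obtain ⟨z, l, rfl⟩ := List.exists_cons_of_ne_nil hne
    obtain ⟨y, hy, M, hM, hc⟩ := hP z l (hLadm z List.mem_cons_self)
      (fun y hy => hLadm y (List.mem_cons_of_mem _ hy)) ((l.length + 1) / 2) (2 * N) (by omega)
      (by rw [List.length_cons] at hev; omega) (by
        rw [← List.prod_cons, hprod, List.length_cons, ← pow_mul, ← pow_mul]
        congr 1
        have : (l.length + 1) / 2 * (2 * N) = ((l.length + 1) / 2 * 2) * N := by ring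
        rw [this]
        congr 1
        rw [List.length_cons] at hev
        omega)
    obtain ⟨k, rfl⟩ := hmem z List.mem_cons_self
    obtain ⟨k', rfl⟩ := hmem y (List.mem_cons_of_mem _ hy)
    exact hpart k k' M hM hc
  · -- odd: the square root of `q`
    obtain ⟨s, hs⟩ := IsAlgClosed.exists_pow_nat_eq (q : ℂ) (n := 2) (by norm_num)
    have hs' : AlmostAll.Adm q S s := ⟨1, le_rfl, Or.inl (by rw [mul_one, hs, pow_one])⟩
    obtain ⟨y, hy, M, hM, hc⟩ := hP s L hs' hLadm ((L.length + 1) / 2) (2 * N)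
      (by omega) (by omega) (by
        rw [mul_pow, hprod, pow_mul, hs, ← mul_pow, ← pow_succ', ← pow_mul, ← pow_mul]
        congr 1
        have : (L.length + 1) / 2 * (2 * N) = ((L.length + 1) / 2 * 2) * N := by ring
        rw [this]
        congr 1
        omega)
    obtain ⟨k, rfl⟩ := hmem y hy
    refine hpart k k M hM ?_
    have h5 : (s * ι (r k)) ^ (2 * M) = ((q : ℂ) ^ M) ^ 2 := by
      rw [mul_comm 2 M, pow_mul, hc]
    rw [mul_pow, pow_mul, hs] at h5
    have hq0' : ((q : ℂ)) ^ M ≠ 0 := pow_ne_zero _ hq0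
    apply mul_left_cancel₀ hq0'
    have e2 : (q : ℂ) ^ M * (ι (r k) * ι (r k)) ^ M = (q : ℂ) ^ M * ι (r k) ^ (2 * M) := by ring
    rw [e2, h5]
    ring

/-- The criterion is exact. -/
theorem par_iff_cr {q : ℕ} (hq : IsPrimePow q) {v : AbsoluteValue (AlgebraicClosure ℚ) ℝ}
    (hv : AlmostAll.Val q v) {S : Set ℤ[X]} (hS : S ⊆ AlmostAll.FL q) :
    AlmostAll.Par q (AlmostAll.Adm q S) ↔ AlmostAll.Cr q v S := by
  constructor
  · intro hP n h B hB _ _ hG
    by_contra hc
    exact not_par hq.pos (t_E14 t_SLP (t_UNI4 t_SLP t_LOC) t_GIS4 q v S hq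
      ((AlmostAll.Val_iff q v).1 hv) hS n h B hB hG hc) hP
  · exact fun h => (AlmostAll.arith q v S hq hv hS h).1

end Pool.Agent.UN5
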