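import Mathlib

/-!
# UN5: flips which fix a given element, general version (helper88)

A group acts on a finite set `Z` transitively and with all flips of the pairs `x, bar x`.  If it acts
on a set `Y` with less elements than `Z`, then for `z ∈ Z` and `y ∈ Y` there is an element which fixes
`y` and flips `z`.

Proof.  Let `B (u)`, `u ∈ Y`, be the set of the `w ∈ Z` such that no element fixes `u` and flips `w`.  Products
of flips of elements of `B (u)` map `u` to different elements `u'`, with `B (u') = B (u)`; this gives at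
least `card B (u)` elements `u'` with `w ∈ B (u')`, for each `w ∈ Z`.  Double counting of the pairs `(w, u')`
gives `card Z * b ≤ card Y * b`, `b = card B (u)`.
-/

set_option autoImplicit false

namespace Pool.Agent.UN5

variable {Γ Ω : Type*} [Group Γ] [MulAction Γ Ω]

/-- `u` prevents the flip of `w` -/
def Pw (Γ : Type*) [Group Γ] [MulAction Γ Ω] (bar : Ω → Ω) (w u : Ω) : Prop :=
  ∀ g : Γ, g • u = u → g • w ≠ bar w

theorem Pw.conj {bar : Ω → Ω} (he : ∀ (g : Γ) x, g • bar x = bar (g • x)) {w u : Ω}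
    (h : Pw Γ bar w u) (g : Γ) : Pw Γ bar (g • w) (g • u) := by
  intro s hs e
  refine h (g⁻¹ * (s * g)) ?_ ?_
  · rw [mul_smul, mul_smul, hs, inv_smul_smul]
  · rw [mul_smul, mul_smul, e, ← he, inv_smul_smul]

theorem Pw.bar {bar : Ω → Ω} (hb : ∀ x, bar (bar x) = x)
    (he : ∀ (g : Γ) x, g • bar x = bar (g • x)) {w u : Ω} (h : Pw Γ bar w u) :
    Pw Γ bar (bar w) u := by
  intro s hs e
  refine h s hs ?_
  rw [he, hb] at e
  rw [← hb (s • w), e]

open Classical in
theorem count {bar : Ω → Ω} (hb : ∀ x, bar (bar x) = x)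
    (he : ∀ (g : Γ) x, g • bar x = bar (g • x)) {Z : Set Ω} (hZf : Z.Finite)
    (hbZ : ∀ a ∈ Z, bar a ≠ a)
    (hf : ∀ a ∈ Z, ∃ g : Γ, g • a = bar a ∧ ∀ b ∈ Z, b ≠ a → b ≠ bar a → g • b = b)
    (hbm : ∀ a ∈ Z, bar a ∈ Z) {T : Set Ω} (hT : T.Finite) (hTm : ∀ (g : Γ), ∀ u ∈ T, g • u ∈ T)
    {w u : Ω} (hw : w ∈ Z) (hu : u ∈ T) (hP : Pw Γ bar w u) :
    {x | x ∈ Z ∧ Pw Γ bar x u}.ncard ≤ {x | x ∈ T ∧ Pw Γ bar w x}.ncard := by
  choose! f hf1 hf2 using hf
  obtain ⟨e, hinj⟩ := Set.countable_iff_exists_injOn.1 hZf.countable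
  have hbw : bar w ≠ w := hbZ w hw
  have hfb : ∀ a ∈ Z, f a • bar a = a := fun a ha => by rw [he, hf1 a ha, hb]
  have hsw : ∀ {x t : Ω}, x ≠ bar t → t ≠ bar x := fun {x t} h h' => h (by rw [h', hb])
  let s : Ω → Γ := fun x => (if e x < e (bar x) then 1 else f w) *
    (if x = w ∨ x = bar w then 1 else f x)
  have s1 : ∀ x ∈ Z, s x • w = if e x < e (bar x) then w else bar w := by
    intro x hx
    have h1 : (if x = w ∨ x = bar w then (1 : Γ) else f x) • w = w := by
      by_cases h : x = w ∨ x = bar w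
      · rw [if_pos h, one_smul]
      · rw [if_neg h]
        rw [not_or] at h
        exact hf2 x hx w hw (Ne.symm h.1) (hsw h.2)
    change ((if e x < e (bar x) then (1 : Γ) else f w) *
      (if x = w ∨ x = bar w then 1 else f x)) • w = _
    rw [mul_smul, h1]
    by_cases h : e x < e (bar x)
    · rw [if_pos h, if_pos h, one_smul]
    · rw [if_neg h, if_neg h, hf1 w hw]
  have s2 : ∀ x ∈ Z, ∀ t ∈ Z, t ≠ w → t ≠ bar w →
      s x • t = if t = x ∨ t = bar x then bar t else t := by
    intro x hx t ht h1 h2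
    have h3 : (if x = w ∨ x = bar w then (1 : Γ) else f x) • t =
        if t = x ∨ t = bar x then bar t else t := by
      by_cases h : x = w ∨ x = bar w
      · rw [if_pos h, one_smul, if_neg]
        rintro (h4 | h4)
        · rcases h with h | h
          · exact h1 (h4.trans h)
          · exact h2 (h4.trans h)
        · rcases h with h | h
          · exact h2 (by rw [h4, h])
          · exact h1 (by rw [h4, h, hb])
      · rw [if_neg h]
        by_cases h4 : t = x ∨ t = bar x
        · rw [if_pos h4]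
          rcases h4 with rfl | rfl
          · exact hf1 t ht
          · rw [hfb x hx, hb]
        · rw [if_neg h4]
          rw [not_or] at h4
          exact hf2 x hx t ht h4.1 h4.2
    have h5 : ∀ t' : Ω, t' ∈ Z → t' ≠ w → t' ≠ bar w →
        (if e x < e (bar x) then (1 : Γ) else f w) • t' = t' := by
      intro t' ht' h6 h7
      by_cases h : e x < e (bar x)
      · rw [if_pos h, one_smul]
      · rw [if_neg h]
        exact hf2 w hw t' ht' h6 h7
    change ((if e x < e (bar x) then (1 : Γ) else f w) *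
      (if x = w ∨ x = bar w then 1 else f x)) • t = _
    rw [mul_smul, h3]
    by_cases h4 : t = x ∨ t = bar x
    · rw [if_pos h4]
      refine h5 (bar t) (hbm t ht) (fun h => h2 (by rw [← h, hb])) fun h => h1 ?_
      rw [← hb t, h, hb]
    · rw [if_neg h4]
      exact h5 t ht h1 h2
  refine Set.ncard_le_ncard_of_injOn (fun x => s x • u) ?_ ?_ (hT.subset fun x hx => hx.1)
  · rintro x ⟨hx, -⟩
    refine ⟨hTm _ _ hu, ?_⟩
    have h1 := hP.conj he (s x)
    rw [s1 x hx] at h1
    by_cases h : e x < e (bar x)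
    · rwa [if_pos h] at h1
    · rw [if_neg h] at h1
      have := h1.bar hb he
      rwa [hb] at this
  · rintro x ⟨hx, hPx⟩ y ⟨hy, hPy⟩ hxy
    change s x • u = s y • u at hxy
    have hfix : ((s x)⁻¹ * s y) • u = u := by rw [mul_smul, ← hxy, inv_smul_smul]
    -- `s x` and `s y` are equal on the elements of `B u`
    have key : ∀ t, Pw Γ bar t u → s x • t = bar t → s y • t = t → False := by
      intro t hPt h1 h2
      refine hPt _ hfix ?_
      rw [mul_smul, h2, inv_smul_eq_iff, he, h1, hb]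
    have key' : ∀ t, Pw Γ bar t u → s x • t = t → s y • t = bar t → False := by
      intro t hPt h1 h2
      refine hPt _ hfix ?_
      rw [mul_smul, h2, inv_smul_eq_iff, he, h1]
    have hpos : e x < e (bar x) ↔ e y < e (bar y) := by
      have h1 := s1 x hx
      have h2 := s1 y hy
      by_cases h : e x < e (bar x)
      · by_cases h' : e y < e (bar y)
        · exact ⟨fun _ => h', fun _ => h⟩
        · rw [if_pos h] at h1
          rw [if_neg h'] at h2
          exact absurd (key' w hP h1 h2) id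
      · by_cases h' : e y < e (bar y)
        · rw [if_neg h] at h1
          rw [if_pos h'] at h2
          exact absurd (key w hP h1 h2) id
        · exact ⟨fun h3 => absurd h3 h, fun h3 => absurd h3 h'⟩
    have hpair : y = x ∨ y = bar x := by
      by_cases h : x = w ∨ x = bar w
      · by_cases h' : y = w ∨ y = bar w
        · rcases h with h | h <;> rcases h' with h' | h'
          · exact Or.inl (by rw [h, h'])
          · exact Or.inr (by rw [h, h'])
          · exact Or.inr (by rw [h, h', hb])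
          · exact Or.inl (by rw [h, h'])
        · exfalso
          have h'' := not_or.1 h'
          have a1 := s2 y hy y hy h''.1 h''.2
          rw [if_pos (Or.inl rfl)] at a1
          have a2 := s2 x hx y hy h''.1 h''.2
          rw [if_neg] at a2
          · exact key' y hPy a2 a1
          · rintro (h3 | h3)
            · exact h' (h3 ▸ h)
            · rcases h with h | h
              · exact h' (Or.inr (by rw [h3, h]))
              · exact h' (Or.inl (by rw [h3, h, hb]))
      · have h'' := not_or.1 h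
        have a1 := s2 x hx x hx h''.1 h''.2
        rw [if_pos (Or.inl rfl)] at a1
        have a2 := s2 y hy x hx h''.1 h''.2
        by_cases h3 : x = y ∨ x = bar y
        · rcases h3 with h3 | h3
          · exact Or.inl h3.symm
          · exact Or.inr (by rw [h3, hb])
        · rw [if_neg h3] at a2
          exact absurd (key x hPx a1 a2) id
    rcases hpair with h | h
    · exact h.symm
    · exfalso
      have h1 : e (bar x) ≠ e x := fun h2 => hbZ x hx (hinj (hbm x hx) hx h2)
      rw [h, hb] at hpos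
      omega

/-- there is an element which fixes `y` and flips `z` -/
theorem flg {bar : Ω → Ω} (hb : ∀ x, bar (bar x) = x)
    (he : ∀ (g : Γ) x, g • bar x = bar (g • x)) {Z Y : Set Ω}
    (ht : ∀ a ∈ Z, ∀ b ∈ Z, ∃ g : Γ, g • a = b)
    (hf : ∀ a ∈ Z, ∃ g : Γ, g • a = bar a ∧ ∀ b ∈ Z, b ≠ a → b ≠ bar a → g • b = b)
    (hgZ : ∀ (g : Γ), ∀ a ∈ Z, g • a ∈ Z) (hbm : ∀ a ∈ Z, bar a ∈ Z)
    (hbZ : ∀ a ∈ Z, bar a ≠ a) (hYf : Y.Finite) (hY : ∀ (g : Γ) y, y ∈ Y → g • y ∈ Y)
    (hlt : Y.ncard < Z.ncard) {z y : Ω} (hz : z ∈ Z) (hy : y ∈ Y) :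
    ∃ g : Γ, g • y = y ∧ g • z = bar z := by
  classical
  by_contra hn
  push Not at hn
  have hP : Pw Γ bar z y := hn
  have hZf : Z.Finite := Set.finite_of_ncard_pos (by omega)
  have hTsub : {u | u ∈ Y ∧ ∃ g : Γ, u = g • y} ⊆ Y := fun u hu => hu.1
  obtain ⟨T, hTdef⟩ : ∃ T : Set Ω, T = {u | u ∈ Y ∧ ∃ g : Γ, u = g • y} := ⟨_, rfl⟩
  rw [← hTdef] at hTsub
  have hTf : T.Finite := hYf.subset hTsub
  have hTm : ∀ (g : Γ), ∀ u ∈ T, g • u ∈ T := by
    rintro g u hu
    rw [hTdef] at hu ⊢
    obtain ⟨h1, k, rfl⟩ := hu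
    exact ⟨hY g _ h1, g * k, by rw [mul_smul]⟩
  have hB : ∀ u ∈ T, {x | x ∈ Z ∧ Pw Γ bar x u}.ncard = {x | x ∈ Z ∧ Pw Γ bar x y}.ncard := by
    intro u hu
    rw [hTdef] at hu
    obtain ⟨-, g, rfl⟩ := hu
    have : {x | x ∈ Z ∧ Pw Γ bar x (g • y)} = (fun x => g • x) '' {x | x ∈ Z ∧ Pw Γ bar x y} := by
      ext x
      constructor
      · rintro ⟨h1, h2⟩
        refine ⟨g⁻¹ • x, ⟨hgZ _ _ h1, ?_⟩, smul_inv_smul g x⟩
        have := h2.conj he g⁻¹
        rwa [inv_smul_smul] at this
      · rintro ⟨t, ⟨h1, h2⟩, rfl⟩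
        exact ⟨hgZ _ _ h1, h2.conj he g⟩
    rw [this]
    exact Set.ncard_image_of_injective _ fun a b hab => smul_left_cancel g hab
  have hpos : 1 ≤ {x | x ∈ Z ∧ Pw Γ bar x y}.ncard := by
    refine (Set.ncard_pos (hZf.subset fun x hx => hx.1)).2 ⟨z, hz, hP⟩
  have hC : ∀ w ∈ Z, {x | x ∈ Z ∧ Pw Γ bar x y}.ncard ≤ {x | x ∈ T ∧ Pw Γ bar w x}.ncard := by
    intro w hw
    obtain ⟨g, rfl⟩ := ht z hz w hw
    have hu : g • y ∈ T := by
      rw [hTdef]
      exact ⟨hY g _ hy, g, rfl⟩
    rw [← hB _ hu]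
    exact count hb he hZf hbZ hf hbm hTf hTm hw hu (hP.conj he g)
  -- double counting
  have h1 := Finset.card_mul_le_card_mul (s := hZf.toFinset) (t := hTf.toFinset)
    (fun w u => Pw Γ bar w u) (m := {x | x ∈ Z ∧ Pw Γ bar x y}.ncard)
    (n := {x | x ∈ Z ∧ Pw Γ bar x y}.ncard) (by
      intro w hw
      refine (hC w (hZf.mem_toFinset.1 hw)).trans_eq ?_
      rw [← Set.ncard_coe_finset]
      congr 1
      ext u
      simp) (by
      intro u hu
      rw [← hB u (hTf.mem_toFinset.1 hu), ← Set.ncard_coe_finset]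
      refine le_of_eq ?_
      congr 1
      ext w
      simp)
  have h2 := Nat.le_of_mul_le_mul_right h1 hpos
  rw [← Set.ncard_eq_toFinset_card Z hZf, ← Set.ncard_eq_toFinset_card T hTf] at h2
  have h3 := Set.ncard_le_ncard hTsub hYf
  omega

end Pool.Agent.UN5
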