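import Pool.Agent.UN5.EXA
import Pool.Agent.GT4.Fin
import Pool.Agent.WAF.Ar

/-!
# UN5: almost all abelian varieties together with all curves of small genus (helper88)
-/

set_option autoImplicit false

open Polynomial Filter

namespace Pool.Agent.UN5

open AlmostAll Pool.Agent.GT3 Pool.Agent.GT4 Pool.Agent.GT2

/-- the surfaces which are not of dihedral type -/
def ND (q : ℕ) : Set ℤ[X] := {h | h ∈ T2 q ∧ (IsSquare (DD (h.coeff 1) (h.coeff 0)) ∨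
  IsSquare (DP q (h.coeff 1) (h.coeff 0)) ∨
  IsSquare (DD (h.coeff 1) (h.coeff 0) * DP q (h.coeff 1) (h.coeff 0)))}

theorem om_card {q : ℕ} (hq : 1 ≤ q) {h : ℤ[X]} (hm : h.Monic) :
    (Om q h).ncard ≤ 2 * h.natDegree := by
  obtain ⟨w1, w2, w3, -⟩ := TJ2.t_WEI TJ2.t_OMB q h hq hm
  have h1 : Om q h = (TJ2.weil q h).rootSet (AlgebraicClosure ℚ) := by
    ext a
    rw [Polynomial.mem_rootSet]
    exact ⟨fun ha => ⟨w1.ne_zero, (w3 a).2 ha⟩, fun ha => (w3 a).1 ha.2⟩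
  rw [h1, ← w2]
  exact Polynomial.ncard_rootSet_le _ _

theorem cr_mono {q : ℕ} {v : AbsoluteValue (AlgebraicClosure ℚ) ℝ} {S S' : Set ℤ[X]}
    (h : S ⊆ S') (hC : Cr q v S') : Cr q v S :=
  fun n f B hB h1 h2 h3 => hC n f B (fun i => ⟨h (hB i).1, (hB i).2⟩) h1 h2 h3

/-- the exact criterion for the union -/
theorem union_iff {q : ℕ} (hq : IsPrimePow q) {v : AbsoluteValue (AlgebraicClosure ℚ) ℝ}
    (hv : Val q v) {S₁ S₂ : Set ℤ[X]} (h1 : S₁ ⊆ FL q) (h2 : ∀ h ∈ S₂, h ∈ RW h.natDegree q)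
    (hlt : ∀ h ∈ S₁, ∀ h' ∈ S₂, (Om q h').ncard < (Om q h).ncard) :
    (Par q (Adm q (S₁ ∪ S₂)) ↔ Cr q v S₁ ∧ Par q (Adm q S₂)) ∧
      ∀ z, Adm q (S₁ ∪ S₂) z → ‖z‖ ^ 2 = (q : ℝ) := by
  refine ⟨?_, fun z hz => Pool.Agent.GT2.norm_adm' hq.one_lt.le (fun h hh => ?_) hz⟩
  · rw [← par_iff_cr hq hv h1]
    exact union hq h1 h2 hlt
  · rcases hh with hh | hh
    · exact ⟨_, (h1 hh).2.1⟩
    · exact ⟨_, h2 h hh⟩

/-- the part of degree at most two -/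
def Lo (q : ℕ) (S : Set ℤ[X]) : Set ℤ[X] :=
  {h | (h ∈ All 1 q ∪ T2 q) ∧ ((q = 3 ∨ q = 7 ∨ q = 11 ∨ q = 27 ∨ q = 43) ∨
    (q ≤ 16 ∧ h ∈ All 1 q ∪ OT q) ∨
    (16 < q ∧ (h.natDegree = 1 ∨ h ∈ S ∨ h ∈ ND q ∨ (q % 4 = 3 ∧ (q.minFac : ℤ) ∣ h.coeff 0))))}

theorem lo_sub {q : ℕ} {S : Set ℤ[X]} : Lo q S ⊆ All 1 q ∪ T2 q := fun _ hh => hh.1

theorem gx_mono {q : ℕ} {S S' : Set ℤ[X]} (h : S ⊆ S') (hG : GxP q S') : GxP q S :=
  ⟨fun a ha b hb => hG.mx a (h ha) b (h hb),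
    fun a ha b hb c hc => hG.tp a (h ha) b (h hb) c (h hc)⟩

/-- it is good -/
theorem lo_good {q : ℕ} (hq : IsPrimePow q) {S : Set ℤ[X]} (hO : ∀ h ∈ S, h ∈ Ord h.natDegree q)
    (hP : Par q (Adm q S)) : GxP q (Lo q S) := by
  by_cases h5 : q = 3 ∨ q = 7 ∨ q = 11 ∨ q = 27 ∨ q = 43
  · exact gx_mono lo_sub (GT4.gx_of hq (gdall h5))
  by_cases h16 : q ≤ 16
  · refine gx_mono ?_ (GT4.gx_of hq (gd16 hq h16))
    rintro h ⟨-, h1 | h1 | h1⟩
    · exact absurd h1 h5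
    · exact h1.2
    · omega
  -- the members of reflex pairs
  have hS2 : {h | h ∈ S ∧ h.natDegree = 2} ⊆ All 1 q ∪ T2 q := by
    rintro h ⟨h1, h2⟩
    have h3 := hO h h1
    rw [h2] at h3
    exact Or.inr ⟨h3.1, Or.inl h3.2⟩
  have hG : GxP q {h | h ∈ S ∧ h.natDegree = 2} :=
    (GT4.crit hq hS2).1 (par_mono hP fun z => adm_mono fun h hh => hh.1)
  have key : ∀ h ∈ Lo q S, h.natDegree = 2 → Gn q (h.coeff 1) (h.coeff 0) →
      h ∈ {h | h ∈ S ∧ h.natDegree = 2} ∨ (q % 4 = 3 ∧ (q.minFac : ℤ) ∣ h.coeff 0) := by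
    rintro h ⟨-, h1 | h1 | ⟨-, h1 | h1 | h1 | h1⟩⟩ hd hg
    · exact absurd h1 h5
    · exact absurd h1.1 h16
    · omega
    · exact Or.inl ⟨h1, hd⟩
    · exfalso
      rcases h1.2 with h2 | h2 | h2
      · exact hg.1 h2
      · exact hg.2.1 h2
      · exact hg.2.2.1 h2
    · exact Or.inr h1
  have hord : ∀ h ∈ {h | h ∈ S ∧ h.natDegree = 2}, ¬ (q.minFac : ℤ) ∣ h.coeff 0 :=
    fun h hh => (hO h hh.1).2
  constructor
  · intro h hh h' hh' hp hR
    by_cases h4 : q % 4 = 3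
    · exact GT4.mx3 hq h4 h (lo_sub hh) h' (lo_sub hh') hp hR
    · rcases key h hh hR.1 hR.2.2.1 with k | k
      · rcases key h' hh' hR.2.1 hR.2.2.2.1 with k' | k'
        · rcases hp with hp | hp
          · exact hord h k hp
          · exact hord h' k' hp
        · exact h4 k'.1
      · exact h4 k.1
  · intro h hh h' hh' h'' hh'' hR hR'
    have k : ∀ f ∈ Lo q S, f.natDegree = 2 → Gn q (f.coeff 1) (f.coeff 0) →
        (q % 4 = 3 → ¬ (q.minFac : ℤ) ∣ f.coeff 0) → f ∈ {h | h ∈ S ∧ h.natDegree = 2} := by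
      intro f hf hd hg hn
      rcases key f hf hd hg with k | k
      · exact k
      · exact absurd k.2 (hn k.1)
    have m : q % 4 = 3 → ∀ f ∈ Lo q S, ∀ f' ∈ Lo q S, RxP q f f' →
        ¬ (q.minFac : ℤ) ∣ f.coeff 0 ∧ ¬ (q.minFac : ℤ) ∣ f'.coeff 0 := fun h4 f hf f' hf' hr =>
      ⟨fun hc => GT4.mx3 hq h4 f (lo_sub hf) f' (lo_sub hf') (Or.inl hc) hr,
        fun hc => GT4.mx3 hq h4 f (lo_sub hf) f' (lo_sub hf') (Or.inr hc) hr⟩
    exact hG.tp h (k h hh hR.1 hR.2.2.1 fun h4 => (m h4 h hh h' hh' hR).1)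
      h' (k h' hh' hR.2.1 hR.2.2.2.1 fun h4 => (m h4 h hh h' hh' hR).2)
      h'' (k h'' hh'' hR'.2.1 hR'.2.2.2.1 fun h4 => (m h4 h hh h'' hh'' hR').2) hR hR'

/-- almost all abelian varieties together with all curves of small genus -/
theorem main : ∃ S : ℕ → Set ℤ[X],
    (∀ q, IsPrimePow q → Par q (Adm q (S q)) ∧
      (∀ h ∈ S q, 3 ≤ h.natDegree → h ∈ FL q ∧ (Om q h).ncard = 2 * h.natDegree) ∧
      All 1 q ∪ ND q ⊆ S q ∧ (q % 4 = 3 → NO q ⊆ S q) ∧ (q ≤ 16 → OT q ⊆ S q) ∧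
      (q = 3 ∨ q = 7 ∨ q = 11 ∨ q = 27 ∨ q = 43 → T2 q ⊆ S q)) ∧
    ∀ (g : ℕ) (A : ℕ → Set ℤ[X]), 1 ≤ g →
      (∀ q, IsPrimePow q → Ord g q ⊆ A q ∧ A q ⊆ All g q) →
      Tendsto (fun q : {q : ℕ // IsPrimePow q} => ((S q ∩ A q).ncard : ℝ) / (A q).ncard)
        atTop (nhds 1) := by
  obtain ⟨S, h1, h2⟩ := WAF.set_all
  have hPar : ∀ q, IsPrimePow q → Par q (Adm q (S q)) := by
    intro q hq
    obtain ⟨v, hv⟩ := TJ4.t_EXV q hq
    obtain ⟨-, hFL, -, hC⟩ := h1 q hq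
    exact (AlmostAll.arith q v (S q) hq ((Val_iff q v).2 hv) hFL (hC v hv)).1
  have hOrd : ∀ q, IsPrimePow q → ∀ h ∈ S q, h ∈ Ord h.natDegree q := fun q hq h hh =>
    ((h1 q hq).1 hh).2.1
  have hcard : ∀ q, IsPrimePow q → ∀ h ∈ S q, (Om q h).ncard = 2 * h.natDegree :=
    fun q hq h hh => ((h1 q hq).1 hh).2.2.1
  have hdeg2 : ∀ q, IsPrimePow q → ∀ h ∈ Lo q (S q), h ∈ RW h.natDegree q ∧ h.natDegree ≤ 2 := by
    rintro q hq h ⟨h3 | h3, -⟩
    · have := h3.1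
      rw [this.2.1]
      exact ⟨this, by norm_num⟩
    · have := h3.1
      rw [this.2.1]
      exact ⟨this, le_rfl⟩
  refine ⟨fun q => {h | h ∈ S q ∧ 3 ≤ h.natDegree} ∪ Lo q (S q), ?_, ?_⟩
  · intro q hq
    obtain ⟨v, hv⟩ := TJ4.t_EXV q hq
    obtain ⟨-, hFL, -, hC⟩ := h1 q hq
    have e1 : All 1 q ⊆ Lo q (S q) := by
      intro h hh
      refine ⟨Or.inl hh, ?_⟩
      by_cases h5 : q = 3 ∨ q = 7 ∨ q = 11 ∨ q = 27 ∨ q = 43
      · exact Or.inl h5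
      · by_cases h16 : q ≤ 16
        · exact Or.inr (Or.inl ⟨h16, Or.inl hh⟩)
        · exact Or.inr (Or.inr ⟨not_le.1 h16, Or.inl hh.1.2.1⟩)
    refine ⟨?_, ?_, ?_, ?_, ?_, ?_⟩
    · refine (union_iff hq ((Val_iff q v).2 hv) (S₁ := {h | h ∈ S q ∧ 3 ≤ h.natDegree})
        (fun h hh => hFL hh.1) (fun h hh => (hdeg2 q hq h hh).1) ?_).1.2
        ⟨cr_mono (fun h hh => hh.1) (hC v hv),
          (GT4.crit hq lo_sub).2 (lo_good hq (hOrd q hq) (hPar q hq))⟩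
      intro h hh h' hh'
      rw [hcard q hq h hh.1]
      have h3 := om_card hq.one_lt.le (hdeg2 q hq h' hh').1.1
      have h4 := (hdeg2 q hq h' hh').2
      have h5 := hh.2
      omega
    · rintro h (hh | hh) h3
      · exact ⟨hFL hh.1, hcard q hq h hh.1⟩
      · have := (hdeg2 q hq h hh).2
        omega
    · rintro h (hh | hh)
      · exact Or.inr (e1 hh)
      · refine Or.inr ⟨Or.inr hh.1, ?_⟩
        by_cases h5 : q = 3 ∨ q = 7 ∨ q = 11 ∨ q = 27 ∨ q = 43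
        · exact Or.inl h5
        · by_cases h16 : q ≤ 16
          · exact Or.inr (Or.inl ⟨h16, Or.inr ⟨hh.1, Or.inr hh.2⟩⟩)
          · exact Or.inr (Or.inr ⟨not_le.1 h16, Or.inr (Or.inr (Or.inl hh))⟩)
    · intro h4 h hh
      refine Or.inr ⟨Or.inr hh.1, ?_⟩
      by_cases h5 : q = 3 ∨ q = 7 ∨ q = 11 ∨ q = 27 ∨ q = 43
      · exact Or.inl h5
      · have h16 : 16 < q := by
          by_contra hc
          push Not at hc
          interval_cases q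
          all_goals first
            | omega
            | exact absurd hq (by decide)
            | (exfalso; revert hq; rw [isPrimePow_nat_iff_bounded]; decide)
        refine Or.inr (Or.inr ⟨h16, ?_⟩)
        rcases hh.2 with h6 | h6
        · exact Or.inr (Or.inr (Or.inr ⟨h4, h6⟩))
        · exact Or.inr (Or.inr (Or.inl ⟨hh.1, h6⟩))
    · intro h16 h hh
      exact Or.inr ⟨Or.inr hh.1, Or.inr (Or.inl ⟨h16, Or.inr hh⟩)⟩
    · intro h5 h hh
      exact Or.inr ⟨Or.inr hh, Or.inl h5⟩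
  · intro g A hg hA
    have h3 := WAF.density_all hg (h2 g hg) A hA
    refine tendsto_of_tendsto_of_tendsto_of_le_of_le h3 tendsto_const_nhds ?_ ?_
    · rintro ⟨q, hq⟩
      by_cases hf : (A q).Finite
      · refine div_le_div_of_nonneg_right ?_ (Nat.cast_nonneg _)
        refine Nat.cast_le.2 (Set.ncard_le_ncard ?_ (hf.subset Set.inter_subset_right))
        rintro h ⟨h4, h5⟩
        refine ⟨?_, h5⟩
        by_cases h6 : 3 ≤ h.natDegree
        · exact Or.inl ⟨h4, h6⟩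
        · refine Or.inr ?_
          have h7 := hOrd q hq h h4
          have h8 : 1 ≤ h.natDegree := ((h1 q hq).2.1 h4).1
          by_cases h9 : h.natDegree = 1
          · rw [h9] at h7
            have h10 : h ∈ All 1 q := ⟨h7.1, Or.inl h7.2⟩
            refine ⟨Or.inl h10, ?_⟩
            by_cases h5 : q = 3 ∨ q = 7 ∨ q = 11 ∨ q = 27 ∨ q = 43
            · exact Or.inl h5
            · by_cases h16 : q ≤ 16
              · exact Or.inr (Or.inl ⟨h16, Or.inl h10⟩)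
              · exact Or.inr (Or.inr ⟨not_le.1 h16, Or.inl h9⟩)
          · have h11 : h.natDegree = 2 := by omega
            rw [h11] at h7
            have h10 : h ∈ T2 q := ⟨h7.1, Or.inl h7.2⟩
            refine ⟨Or.inr h10, ?_⟩
            by_cases h5 : q = 3 ∨ q = 7 ∨ q = 11 ∨ q = 27 ∨ q = 43
            · exact Or.inl h5
            · by_cases h16 : q ≤ 16
              · exact Or.inr (Or.inl ⟨h16, Or.inr ⟨h10, Or.inl h7.2⟩⟩)
              · exact Or.inr (Or.inr ⟨not_le.1 h16, Or.inr (Or.inl h4)⟩)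
      · have h4 : (A q).ncard = 0 := Set.Infinite.ncard hf
        simp [h4]
    · rintro ⟨q, hq⟩
      by_cases hf : (A q).Finite
      · refine div_le_one_of_le₀ ?_ (Nat.cast_nonneg _)
        exact Nat.cast_le.2 (Set.ncard_le_ncard Set.inter_subset_right hf)
      · have h4 : (A q).ncard = 0 := Set.Infinite.ncard hf
        simp [h4]

end Pool.Agent.UN5
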