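import Pool.Agent.GT4.St

/-!
# UN5: a finite check that there are no reflex pairs of ordinary surfaces (helper88)

`a = |A|`, `c = B + 4 q`, `D = a² + 16 q - 4 c`, `D' = c² - 4 q a²`.  For each `(a, c)` the set of the `x ≤ 16 q`
such that `D' x` may be a square is computed as a bit mask by quadratic characters; for each such
`x = D₁` all `(a₁, c₁)` with `D₁ = x` are tested.
-/

set_option autoImplicit false

namespace Pool.Agent.UN5.NRX

/-- `f k` for all `k < n` -/
def allr (f : ℕ → Bool) (n : ℕ) : Bool :=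
  Nat.rec (motive := fun _ => Bool) true (fun k ih => and (f k) ih) n

theorem allr_iff (f : ℕ → Bool) (n : ℕ) : allr f n = true ↔ ∀ k < n, f k = true := by
  induction n with
  | zero => exact ⟨fun _ k hk => absurd hk (Nat.not_lt_zero k), fun _ => rfl⟩
  | succ n ih =>
    change (and (f n) (allr f n)) = true ↔ _
    rw [Bool.and_eq_true, ih]
    constructor
    · rintro ⟨h1, h2⟩ k hk
      rcases Nat.lt_succ_iff_lt_or_eq.1 hk with h | h
      · exact h2 k h
      · rw [h]
        exact h1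
    · exact fun h => ⟨h n (Nat.lt_succ_self n), fun k hk => h k (Nat.lt_succ_of_lt hk)⟩

/-! ### squares -/

theorem beq_iff (a b : ℕ) : Nat.beq a b = true ↔ a = b :=
  ⟨Nat.eq_of_beq_eq_true, fun h => by rw [h]; exact Nat.beq_refl b⟩

/-- the bit `i` of `M` -/
def tb (M i : ℕ) : Bool := Nat.beq (Nat.land (Nat.shiftRight M i) 1) 1

theorem tb_iff (M i : ℕ) : tb M i = true ↔ Nat.testBit M i = true := by
  unfold tb
  rw [Nat.testBit, beq_iff]
  change (M >>> i) &&& 1 = 1 ↔ (1 &&& (M >>> i) != 0) = true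
  rw [Nat.and_comm, Nat.one_and_eq_mod_two, bne_iff_ne]
  omega

/-- one step of Newton's method -/
def stp (z g : ℕ) : ℕ :=
  cond (Nat.blt (Nat.div (Nat.add g (Nat.div z g)) 2) g) (Nat.div (Nat.add g (Nat.div z g)) 2) g

/-- the integral part of the square root by Newton's method (this is not used) -/
def rt (z : ℕ) : ℕ := stp z (stp z (stp z (stp z (stp z (stp z (stp z
  (Nat.pow 2 (Nat.add (Nat.div (Nat.log2 z) 2) 1))))))))

/-- `r` is a witness that `z` is not a square -/
def btw (r z : ℕ) : Bool :=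
  and (Nat.blt (Nat.mul r r) z) (Nat.blt z (Nat.mul (Nat.succ r) (Nat.succ r)))

theorem btw_ns {r z : ℕ} (h : btw r z = true) (n : ℕ) : n * n ≠ z := by
  unfold btw at h
  rw [Bool.and_eq_true, Nat.blt_eq, Nat.blt_eq] at h
  have h' : r * r < z ∧ z < (r + 1) * (r + 1) := h
  rintro rfl
  have h1 := Nat.mul_self_lt_mul_self_iff.1 h'.1
  have h2 := Nat.mul_self_lt_mul_self_iff.1 h'.2
  omega

/-- the squares modulo `m` are in the mask `M` -/
def okm (m M : ℕ) : Bool := (List.range m).all fun t => tb M (Nat.mod (Nat.mul t t) m)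

theorem okm_sq {m M : ℕ} (hm : 0 < m) (h : okm m M = true) (n : ℕ) :
    tb M (n * n % m) = true := by
  unfold okm at h
  rw [List.all_eq_true] at h
  have h1 := h (n % m) (List.mem_range.2 (Nat.mod_lt _ hm))
  have h2 : Nat.mod (Nat.mul (n % m) (n % m)) m = n * n % m := (Nat.mul_mod n n m).symm
  rwa [h2] at h1

/-- a fast necessary condition for a square -/
def fs (z : ℕ) : Bool :=
  and (tb 144680414395695635 (Nat.mod z 64)) (and (tb 288872697407275667 (Nat.mod z 63))
    (and (tb 20863489977805260307 (Nat.mod z 65)) (tb 571 (Nat.mod z 11))))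

theorem fs_sq (n : ℕ) : fs (n * n) = true := by
  unfold fs
  rw [Bool.and_eq_true, Bool.and_eq_true, Bool.and_eq_true]
  exact ⟨okm_sq (by norm_num) (by decide +kernel) n, okm_sq (by norm_num) (by decide +kernel) n,
    okm_sq (by norm_num) (by decide +kernel) n, okm_sq (by norm_num) (by decide +kernel) n⟩

/-- a proof that `z` is not a square -/
def nsq (z : ℕ) : Bool := cond (fs z) (btw (rt z) z) true

theorem nsq_ne {z : ℕ} (h : nsq z = true) (n : ℕ) : n * n ≠ z := by
  rintro rfl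
  unfold nsq at h
  rw [fs_sq, cond_true] at h
  exact btw_ns h n rfl

/-! ### bit masks -/

/-- `P` is periodic: `P = (P % 2 ^ r) (1 + 2 ^ r + ... + 2 ^ (r (K - 1)))` -/
def per (r K P : ℕ) : Bool :=
  Nat.beq (P * (2 ^ r - 1)) ((P % 2 ^ r) * (2 ^ (r * K) - 1))

/-- the repunit -/
def rpu (r : ℕ) : ℕ → ℕ
  | 0 => 0
  | K + 1 => rpu r K * 2 ^ r + 1

theorem rpu_mul (r K : ℕ) : rpu r K * (2 ^ r - 1) = 2 ^ (r * K) - 1 := by
  induction K with
  | zero => simp [rpu]
  | succ K ih =>
    have h1 : 1 ≤ 2 ^ r := Nat.one_le_two_pow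
    have h2 : 1 ≤ 2 ^ (r * K) := Nat.one_le_two_pow
    have h3 : 2 ^ (r * (K + 1)) = 2 ^ (r * K) * 2 ^ r := by rw [mul_add, mul_one, pow_add]
    unfold rpu
    rw [h3]
    zify [h1, h2, (Nat.mul_le_mul h2 h1 : 1 * 1 ≤ 2 ^ (r * K) * 2 ^ r)] at ih ⊢
    linear_combination (2 : ℤ) ^ r * ih

theorem rpu_bit {r p : ℕ} (hp : p < 2 ^ r) : ∀ (K x : ℕ), x < r * K →
    (p * rpu r K).testBit x = p.testBit (x % r) := by
  intro K
  induction K with
  | zero => intro x hx; simp at hx
  | succ K ih =>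
    intro x hx
    have h1 : p * rpu r (K + 1) = 2 ^ r * (p * rpu r K) + p := by
      change p * (rpu r K * 2 ^ r + 1) = _
      ring
    rw [h1, Nat.testBit_two_pow_mul_add _ hp]
    split_ifs with h
    · rw [Nat.mod_eq_of_lt h]
    · rw [ih (x - r) (by rw [mul_add, mul_one] at hx; omega)]
      congr 1
      conv_rhs => rw [← Nat.sub_add_cancel (not_lt.1 h)]
      rw [Nat.add_mod_right]

theorem per_bit {r K P : ℕ} (hr : 0 < r) (h : per r K P = true) {x : ℕ} (hx : x < r * K) :
    P.testBit x = P.testBit (x % r) := by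
  unfold per at h
  have h1 := Nat.eq_of_beq_eq_true h
  have h2 : 0 < 2 ^ r - 1 := by
    have := Nat.one_lt_two_pow hr.ne'
    omega
  have h3 : P = (P % 2 ^ r) * rpu r K := by
    apply Nat.eq_of_mul_eq_mul_right h2
    rw [h1, mul_assoc, rpu_mul]
  have h4 := rpu_bit (Nat.mod_lt P (Nat.two_pow_pos r)) K x hx
  rw [← h3] at h4
  rw [h4, Nat.testBit_mod_two_pow, decide_eq_true (Nat.mod_lt x hr), Bool.true_and]

/-- the entries `(r, Q, P, N)`: `Q` contains the squares modulo `r`; `P`, `N` are periodic; if `i j` is a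
square modulo `r`, `i ≠ 0`, then `j` is in `P` if `i` is in `Q`, else in `N` -/
def okE (L : ℕ) (e : ℕ × ℕ × ℕ × ℕ) : Bool :=
  Nat.blt 0 e.1 && okm e.1 e.2.1 && Nat.ble L (e.1 * (L / e.1 + 1)) &&
    per e.1 (L / e.1 + 1) e.2.2.1 && per e.1 (L / e.1 + 1) e.2.2.2 &&
    (List.range e.1).all fun i => Nat.beq i 0 || (List.range e.1).all fun j =>
      !(tb e.2.1 (Nat.mod (Nat.mul i j) e.1)) ||
        tb (cond (tb e.2.1 i) e.2.2.1 e.2.2.2) j

theorem okE_bit {L : ℕ} {e : ℕ × ℕ × ℕ × ℕ} (h : okE L e = true) {y x m : ℕ} (hx : x < L)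
    (hm : y * x = m * m) (hy : y % e.1 ≠ 0) :
    (cond (tb e.2.1 (y % e.1)) e.2.2.1 e.2.2.2).testBit x = true := by
  unfold okE at h
  simp only [Bool.and_eq_true] at h
  obtain ⟨⟨⟨⟨⟨h0, h1⟩, h2⟩, h3⟩, h4⟩, h5⟩ := h
  have hr : 0 < e.1 := by rwa [Nat.blt_eq] at h0
  rw [Nat.ble_eq] at h2
  have hp : ∀ i, (cond (tb e.2.1 i) e.2.2.1 e.2.2.2).testBit x =
      (cond (tb e.2.1 i) e.2.2.1 e.2.2.2).testBit (x % e.1) := by
    intro i
    cases tb e.2.1 i
    · exact per_bit hr h4 (by omega)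
    · exact per_bit hr h3 (by omega)
  rw [hp]
  rw [List.all_eq_true] at h5
  have h6 := h5 (y % e.1) (List.mem_range.2 (Nat.mod_lt _ hr))
  rw [Bool.or_eq_true] at h6
  rcases h6 with h6 | h6
  · exact absurd (Nat.eq_of_beq_eq_true h6) hy
  rw [List.all_eq_true] at h6
  have h7 := h6 (x % e.1) (List.mem_range.2 (Nat.mod_lt _ hr))
  rw [Bool.or_eq_true] at h7
  rcases h7 with h7 | h7
  · exfalso
    have h8 : Nat.mod (Nat.mul (y % e.1) (x % e.1)) e.1 = m * m % e.1 := by
      change y % e.1 * (x % e.1) % e.1 = _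
      rw [← Nat.mul_mod, hm]
    rw [h8, okm_sq hr h1 m] at h7
    exact absurd h7 (by decide)
  · exact (tb_iff _ _).1 h7

/-- one step -/
def cstep (e : ℕ × ℕ × ℕ × ℕ) (y m : ℕ) (ih : ℕ → ℕ) (S : ℕ) : ℕ :=
  cond (Nat.beq S 0) 0 (cond (Nat.beq m 0) (ih S)
    (ih (Nat.land S (cond (tb e.2.1 m) e.2.2.1 e.2.2.2))))

/-- the candidates `x` in `S` such that `y x` may be a square -/
def cand (T : List (ℕ × ℕ × ℕ × ℕ)) (y : ℕ) : ℕ → ℕ :=
  List.rec (motive := fun _ => ℕ → ℕ) (fun S => S) (fun e _ ih => cstep e y (Nat.mod y e.1) ih) T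

theorem cand_bit {L : ℕ} : ∀ (T : List (ℕ × ℕ × ℕ × ℕ)), (∀ e ∈ T, okE L e = true) →
    ∀ (S y x m : ℕ), x < L → y * x = m * m → S.testBit x = true →
      (cand T y S).testBit x = true := by
  intro T
  induction T with
  | nil => intro _ S y x m _ _ h; exact h
  | cons e t ih =>
    intro hT S y x m hx hm hS
    change (cstep e y (Nat.mod y e.1) (cand t y) S).testBit x = true
    unfold cstep
    cases h0 : Nat.beq S 0
    · rw [cond_false]
      cases h1 : Nat.beq (Nat.mod y e.1) 0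
      · rw [cond_false]
        refine ih (fun e he => hT e (List.mem_cons_of_mem _ he)) _ y x m hx hm ?_
        change (S &&& _).testBit x = true
        rw [Nat.testBit_and, hS, Bool.true_and]
        refine okE_bit (hT e List.mem_cons_self) hx hm ?_
        exact fun h => Bool.false_ne_true (h1.symm.trans ((beq_iff _ _).2 h))
      · rw [cond_true]
        exact ih (fun e he => hT e (List.mem_cons_of_mem _ he)) S y x m hx hm hS
    · exfalso
      rw [Nat.eq_of_beq_eq_true h0, Nat.zero_testBit] at hS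
      exact Bool.false_ne_true hS

/-- one step -/
def gstep (f ih : ℕ → Bool) (S l : ℕ) : Bool :=
  cond (Nat.beq S 0) true (and (f l) (ih (Nat.sub S (Nat.pow 2 l))))

/-- `f` is true for all bits of `S` -/
def go (f : ℕ → Bool) (k : ℕ) : ℕ → Bool :=
  Nat.rec (motive := fun _ => ℕ → Bool) (fun S => Nat.beq S 0)
    (fun _ ih S => gstep f ih S (Nat.log2 S)) k

theorem go_bit {f : ℕ → Bool} : ∀ (k S : ℕ), go f k S = true → ∀ x, S.testBit x = true →
    f x = true := by
  intro k
  induction k with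
  | zero =>
    intro S h x hx
    rw [Nat.eq_of_beq_eq_true h, Nat.zero_testBit] at hx
    exact absurd hx Bool.false_ne_true
  | succ k ih =>
    intro S h x hx
    change gstep f (go f k) S (Nat.log2 S) = true at h
    unfold gstep at h
    cases h0 : Nat.beq S 0
    · rw [h0, cond_false, Bool.and_eq_true] at h
      have hS : S ≠ 0 := fun h => Bool.false_ne_true (h0.symm.trans ((beq_iff _ _).2 h))
      by_cases he : x = Nat.log2 S
      · rw [he]
        exact h.1
      · refine ih _ h.2 x ?_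
        have h1 : 2 ^ Nat.log2 S ≤ S := Nat.log2_self_le hS
        have h2 : S < 2 ^ (Nat.log2 S + 1) := Nat.lt_log2_self
        have h3 : S = 2 ^ Nat.log2 S * 1 + (S - 2 ^ Nat.log2 S) := by omega
        have h4 : S - 2 ^ Nat.log2 S < 2 ^ Nat.log2 S := by
          rw [pow_succ] at h2
          omega
        change (S - 2 ^ Nat.log2 S).testBit x = true
        rw [h3, Nat.testBit_two_pow_mul_add _ h4] at hx
        split_ifs at hx with h5
        · exact hx
        · exfalso
          obtain ⟨j, hj⟩ : ∃ j, x - Nat.log2 S = j + 1 := ⟨x - Nat.log2 S - 1, by omega⟩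
          rw [hj, Nat.testBit_succ] at hx
          simp at hx
    · rw [Nat.eq_of_beq_eq_true h0, Nat.zero_testBit] at hx
      exact absurd hx Bool.false_ne_true

end Pool.Agent.UN5.NRX
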