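import Pool.Agent.UN5.NRX

/-!
# UN5: a finite check that there are no reflex pairs of ordinary surfaces, soundness (helper88)
-/

set_option autoImplicit false

namespace Pool.Agent.UN5.NRX

open Pool.Agent.GT2 Pool.Agent.GT3 Pool.Agent.GT4

/-- `s - t` is not a square, or it is zero and `k` -/
def t3 (s t : ℕ) (k : Bool) : Bool :=
  cond (Nat.blt t s) (nsq (Nat.sub s t)) (cond (Nat.beq t s) k true)

theorem t3_ne {s t : ℕ} {k : Bool} (h : t3 s t k = true) {w : ℤ} (hw : w ^ 2 = (s : ℤ) - t) :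
    w = 0 ∧ k = true := by
  unfold t3 at h
  cases h1 : Nat.blt t s
  · rw [h1, cond_false] at h
    have h1' : ¬ t < s := fun h2 => by
      rw [← Nat.blt_eq, h1] at h2
      exact Bool.false_ne_true h2
    have h2 : w ^ 2 = 0 := by
      have := sq_nonneg w
      have h3 : (s : ℤ) ≤ t := by exact_mod_cast not_lt.1 h1'
      linarith
    have h4 : w = 0 := by simpa using h2
    have h5 : t = s := by
      rw [h2] at hw
      have : (t : ℤ) = s := by linarith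
      exact_mod_cast this
    rw [(beq_iff t s).2 h5, cond_true] at h
    exact ⟨h4, h⟩
  · rw [h1, cond_true] at h
    rw [Nat.blt_eq] at h1
    exfalso
    refine nsq_ne h w.natAbs ?_
    have h2 : ((w.natAbs * w.natAbs : ℕ) : ℤ) = ((s - t : ℕ) : ℤ) := by
      rw [Nat.cast_sub h1.le, ← hw]
      push_cast
      rw [← sq, sq_abs]
    exact_mod_cast h2

/-- all signs -/
def four (P X Y K : ℕ) : Bool :=
  and (t3 (Nat.add (Nat.add P X) Y) 0 (Nat.blt 0 K)) (and (t3 (Nat.add P Y) X (Nat.blt 0 K))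
    (and (t3 (Nat.add P X) Y (nsq K)) (t3 P (Nat.add X Y) (nsq K))))

/-- the test of a pair, with the square roots -/
def pt4 (a c D a1 c1 z1 z2 n m : ℕ) : Bool :=
  or (btw n z1) (or (btw m z2) (and (Nat.beq (Nat.mul n n) z1) (and (Nat.beq (Nat.mul m m) z2)
    (and (Nat.ble (Nat.mul a a) (Nat.mul 2 c)) (and (Nat.ble (Nat.mul a1 a1) (Nat.mul 2 c1))
      (four (Nat.mul (Nat.sub (Nat.mul 2 c) (Nat.mul a a)) (Nat.sub (Nat.mul 2 c1) (Nat.mul a1 a1)))
        (Nat.mul 2 (Nat.mul a n)) (Nat.mul 2 (Nat.mul a1 m)) (Nat.mul D (Nat.mul a1 m))))))))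

/-- the test of a pair -/
def pt3 (a c D y x a1 c1 y1 : ℕ) : Bool :=
  cond (fs (Nat.mul D y1)) (pt4 a c D a1 c1 (Nat.mul D y1) (Nat.mul y x) (rt (Nat.mul D y1))
    (rt (Nat.mul y x))) true

/-- the test of a pair -/
def pt2 (q p a c D y x a1 c1 : ℕ) : Bool :=
  cond (Nat.beq (Nat.mod c1 p) 0) true
    (cond (Nat.blt (Nat.mul c1 c1) (Nat.mul (Nat.mul 4 q) (Nat.mul a1 a1))) true
      (pt3 a c D y x a1 c1 (Nat.sub (Nat.mul c1 c1) (Nat.mul (Nat.mul 4 q) (Nat.mul a1 a1)))))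

/-- the test of a pair -/
def pt (q p a c D y x a1 : ℕ) : Bool :=
  cond (Nat.beq (Nat.mod (Nat.sub (Nat.add (Nat.mul a1 a1) (Nat.mul 16 q)) x) 4) 0)
    (pt2 q p a c D y x a1 (Nat.div (Nat.sub (Nat.add (Nat.mul a1 a1) (Nat.mul 16 q)) x) 4)) true

/-- the test of all pairs with `D₁ = x` -/
def px (q p n a c D y x : ℕ) : Bool := allr (fun a1 => pt q p a c D y x a1) n

/-- a square -/
def isq (z : ℕ) : Bool := Nat.beq (Nat.mul (rt z) (rt z)) z

/-- the test of all pairs with `D₁` in `S` -/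
def sv (q p n a c D y S : ℕ) : Bool :=
  or (Nat.beq S 0) (or (isq D) (or (isq y) (or (isq (Nat.mul D y)) (go (px q p n a c D y) 200 S))))

/-- the test of all pairs for one `(a, c)`; `b = 4 q a²` -/
def ck (T : List (ℕ × ℕ × ℕ × ℕ)) (q p n a b c : ℕ) : Bool :=
  sv q p n a c (Nat.sub (Nat.add (Nat.mul a a) (Nat.mul 16 q)) (Nat.mul 4 c))
    (Nat.sub (Nat.mul c c) b)
    (cand T (Nat.sub (Nat.mul c c) b) (Nat.sub (Nat.pow 2 (Nat.succ (Nat.mul 16 q))) 2))

/-- all `c` congruent to `ρ` modulo `M`, `j₀ M ≤ c - ρ ≤ j₁ M` -/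
def res (T : List (ℕ × ℕ × ℕ × ℕ)) (q p M n a b ρ j0 j1 : ℕ) : Bool :=
  allr (fun j => ck T q p n a b (Nat.add ρ (Nat.mul M (Nat.add j0 j)))) (Nat.succ (Nat.sub j1 j0))

/-- all `c` for a given `a`; `b = 4 q a²`, `lo` is the integral part of the square root of `b`, `hi = (a² + 16 q) / 4` -/
def row' (T : List (ℕ × ℕ × ℕ × ℕ)) (q p M F n a b lo hi : ℕ) : Bool :=
  and (Nat.ble (Nat.mul lo lo) b) (allr (fun ρ =>
    cond (Nat.beq (Nat.mod ρ p) 0) true (cond (tb F (Nat.mod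
        (Nat.sub (Nat.add (Nat.mul a a) (Nat.mul 16 q)) (Nat.mul 4 ρ)) M))
      (cond (Nat.ble ρ hi)
        (res T q p M n a b ρ (Nat.div (Nat.sub lo ρ) M) (Nat.div (Nat.sub hi ρ) M)) true) true)) M)

/-- all `c` for a given `a` -/
def row (T : List (ℕ × ℕ × ℕ × ℕ)) (q p M F n a : ℕ) : Bool :=
  row' T q p M F n a (Nat.mul (Nat.mul 4 q) (Nat.mul a a))
    (rt (Nat.mul (Nat.mul 4 q) (Nat.mul a a)))
    (Nat.div (Nat.add (Nat.mul a a) (Nat.mul 16 q)) 4)

/-- the natural numbers of a real Weil polynomial -/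
structure Nt (q : ℕ) (A B : ℤ) (a c D y : ℕ) : Prop where
  ha : A.natAbs = a
  hc : (c : ℤ) = B + 4 * q
  w1 : a * a ≤ 16 * q
  w2 : 4 * c ≤ a * a + 16 * q
  w3 : 4 * q * (a * a) ≤ c * c
  hD : D = a * a + 16 * q - 4 * c
  hy : y = c * c - 4 * q * (a * a)
  dd : Pool.Agent.GT2.DD A B = D
  dp : Pool.Agent.GT2.DP q A B = y

theorem nt {q : ℕ} {A B : ℤ} (h : W2 q A B) : ∃ a c D y, Nt q A B a c D y := by
  obtain ⟨a, ha⟩ : ∃ a : ℕ, a = A.natAbs := ⟨_, rfl⟩
  obtain ⟨c, hc⟩ : ∃ c : ℕ, c = (B + 4 * q).toNat := ⟨_, rfl⟩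
  have ea : (a : ℤ) * a = A ^ 2 := by
    rw [ha, Int.natAbs_mul_self']
    ring
  have ec : (c : ℤ) = B + 4 * q := by
    rw [hc]
    exact Int.toNat_of_nonneg h.s
  have h1 := h.a
  have h2 := h.d
  have h3 := h.dp
  unfold Pool.Agent.GT2.DD at h2
  unfold Pool.Agent.GT2.DP at h3
  have k1 : a * a ≤ 16 * q := by
    have : (a : ℤ) * a ≤ 16 * q := by rw [ea]; exact h1
    exact_mod_cast this
  have k2 : 4 * c ≤ a * a + 16 * q := by
    have : 4 * (c : ℤ) ≤ a * a + 16 * q := by rw [ea, ec]; linarith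
    exact_mod_cast this
  have k3 : 4 * q * (a * a) ≤ c * c := by
    have : 4 * (q : ℤ) * (a * a) ≤ c * c := by rw [ea, ec]; linarith
    exact_mod_cast this
  refine ⟨a, c, _, _, ha.symm, ec, k1, k2, k3, rfl, rfl, ?_, ?_⟩
  · unfold Pool.Agent.GT2.DD
    rw [Nat.cast_sub k2]
    push_cast
    rw [ea, ec]
    ring
  · unfold Pool.Agent.GT2.DP
    rw [Nat.cast_sub k3]
    push_cast
    rw [ea, ec]
    ring

theorem dle {q a c : ℕ} (h1 : a * a ≤ 16 * q) (h3 : 4 * q * (a * a) ≤ c * c) :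
    a * a ≤ 2 * c := by
  have h4 : (a * a) * (a * a) ≤ (2 * c) * (2 * c) := by
    calc (a * a) * (a * a) ≤ 16 * q * (a * a) := Nat.mul_le_mul_right _ h1
      _ = 4 * (4 * q * (a * a)) := by ring
      _ ≤ 4 * (c * c) := Nat.mul_le_mul_left _ h3
      _ = (2 * c) * (2 * c) := by ring
  exact Nat.mul_self_le_mul_self_iff.1 h4

theorem isq_ne {z : ℕ} (h : isq z = true) : IsSquare (z : ℤ) := by
  refine ⟨rt z, ?_⟩
  have h1 : rt z * rt z = z := (beq_iff _ _).1 h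
  exact_mod_cast h1.symm

theorem pt4_no {q : ℕ} {A B A₁ B₁ : ℤ} {a c D y a1 c1 x y1 n m : ℕ} (h : Nt q A B a c D y)
    (h1 : Nt q A₁ B₁ a1 c1 x y1) (ht : pt4 a c D a1 c1 (D * y1) (y * x) n m = true)
    (N M w : ℤ) (hN : N ^ 2 = DD A B * DP q A₁ B₁) (hM : M ^ 2 = DP q A B * DD A₁ B₁)
    (hw : (A ^ 2 - 2 * B - 8 * q) * (A₁ ^ 2 - 2 * B₁ - 8 * q) + 2 * A * N + 2 * A₁ * M = w ^ 2)
    (hz : w = 0 → IsSquare (-(DD A B * A₁ * M))) : False := by
  rw [h.dd, h1.dp] at hN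
  rw [h.dp, h1.dd] at hM
  rw [h.dd] at hz
  have eN : N.natAbs * N.natAbs = D * y1 := by
    have : ((N.natAbs * N.natAbs : ℕ) : ℤ) = ((D * y1 : ℕ) : ℤ) := by
      push_cast
      rw [← sq, sq_abs, hN]
    exact_mod_cast this
  have eM : M.natAbs * M.natAbs = y * x := by
    have : ((M.natAbs * M.natAbs : ℕ) : ℤ) = ((y * x : ℕ) : ℤ) := by
      push_cast
      rw [← sq, sq_abs, hM]
    exact_mod_cast this
  unfold pt4 at ht
  rw [Bool.or_eq_true] at ht
  rcases ht with ht | ht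
  · exact btw_ns ht _ eN
  rw [Bool.or_eq_true] at ht
  rcases ht with ht | ht
  · exact btw_ns ht _ eM
  simp only [Bool.and_eq_true, beq_iff, Nat.ble_eq] at ht
  obtain ⟨t1, t2, t3', t4, t5⟩ := ht
  have t3'' : a * a ≤ 2 * c := t3'
  have t4'' : a1 * a1 ≤ 2 * c1 := t4
  have n1 : N.natAbs = n := Nat.mul_self_inj.1 (eN.trans t1.symm)
  have m1 : M.natAbs = m := Nat.mul_self_inj.1 (eM.trans t2.symm)
  have ea : (a : ℤ) * a = A ^ 2 := by
    rw [← h.ha, Int.natAbs_mul_self']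
    ring
  have ea1 : (a1 : ℤ) * a1 = A₁ ^ 2 := by
    rw [← h1.ha, Int.natAbs_mul_self']
    ring
  -- the product of the `u`
  have eP : (A ^ 2 - 2 * B - 8 * q) * (A₁ ^ 2 - 2 * B₁ - 8 * q) =
      (((2 * c - a * a) * (2 * c1 - a1 * a1) : ℕ) : ℤ) := by
    rw [Nat.cast_mul, Nat.cast_sub t3'', Nat.cast_sub t4'']
    push_cast
    rw [ea, ea1, h.hc, h1.hc]
    ring
  have eX : A * N = ((a * n : ℕ) : ℤ) ∨ A * N = -((a * n : ℕ) : ℤ) := by
    have := Int.natAbs_eq (A * N)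
    rwa [Int.natAbs_mul, h.ha, n1] at this
  have eY : A₁ * M = ((a1 * m : ℕ) : ℤ) ∨ A₁ * M = -((a1 * m : ℕ) : ℤ) := by
    have := Int.natAbs_eq (A₁ * M)
    rwa [Int.natAbs_mul, h1.ha, m1] at this
  unfold four at t5
  rw [Bool.and_eq_true, Bool.and_eq_true, Bool.and_eq_true] at t5
  obtain ⟨f1, f2, f3, f4⟩ := t5
  have eK : ∀ ε : ℤ, A₁ * M = ε * ((a1 * m : ℕ) : ℤ) →
      -((D : ℤ) * A₁ * M) = -ε * ((D * (a1 * m) : ℕ) : ℤ) := by
    intro ε hε
    rw [mul_assoc, hε]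
    push_cast
    ring
  have pos : ∀ {K : ℕ}, Nat.blt 0 K = true → ¬ IsSquare (-1 * (K : ℤ)) := by
    intro K hK ⟨r, hr⟩
    rw [Nat.blt_eq] at hK
    have : (0 : ℤ) < K := by exact_mod_cast hK
    have := mul_self_nonneg r
    linarith
  have neg : ∀ {K : ℕ}, nsq K = true → ¬ IsSquare (- -1 * (K : ℤ)) := by
    intro K hK ⟨r, hr⟩
    refine nsq_ne hK r.natAbs ?_
    have : ((r.natAbs * r.natAbs : ℕ) : ℤ) = (K : ℤ) := by
      push_cast
      rw [abs_mul_abs_self, ← hr]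
      ring
    exact_mod_cast this
  have hw' : w ^ 2 = (((2 * c - a * a) * (2 * c1 - a1 * a1) : ℕ) : ℤ) + 2 * (A * N) +
      2 * (A₁ * M) := by
    rw [← eP, ← hw]
    ring
  rcases eX with eX | eX <;> rcases eY with eY | eY
  · obtain ⟨w0, k⟩ := t3_ne f1 (w := w) (by
      rw [hw', eX, eY]
      change _ = (((2 * c - a * a) * (2 * c1 - a1 * a1) + 2 * (a * n) + 2 * (a1 * m) : ℕ) : ℤ) -
        ((0 : ℕ) : ℤ)
      push_cast
      ring)
    have h5 := hz w0
    rw [eK 1 (by rw [eY, one_mul])] at h5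
    exact pos k h5
  · obtain ⟨w0, k⟩ := t3_ne f3 (w := w) (by
      rw [hw', eX, eY]
      change _ = (((2 * c - a * a) * (2 * c1 - a1 * a1) + 2 * (a * n) : ℕ) : ℤ) -
        ((2 * (a1 * m) : ℕ) : ℤ)
      push_cast
      ring)
    have h5 := hz w0
    rw [eK (-1) (by rw [eY]; ring)] at h5
    exact neg k h5
  · obtain ⟨w0, k⟩ := t3_ne f2 (w := w) (by
      rw [hw', eX, eY]
      change _ = (((2 * c - a * a) * (2 * c1 - a1 * a1) + 2 * (a1 * m) : ℕ) : ℤ) -
        ((2 * (a * n) : ℕ) : ℤ)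
      push_cast
      ring)
    have h5 := hz w0
    rw [eK 1 (by rw [eY, one_mul])] at h5
    exact pos k h5
  · obtain ⟨w0, k⟩ := t3_ne f4 (w := w) (by
      rw [hw', eX, eY]
      change _ = (((2 * c - a * a) * (2 * c1 - a1 * a1) : ℕ) : ℤ) -
        ((2 * (a * n) + 2 * (a1 * m) : ℕ) : ℤ)
      push_cast
      ring)
    have h5 := hz w0
    rw [eK (-1) (by rw [eY]; ring)] at h5
    exact neg k h5

theorem s0_bit {m x : ℕ} (hx : x ≠ 0) (hm : x < m + 1) : (2 ^ (m + 1) - 2).testBit x = true := by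
  obtain ⟨k, rfl⟩ : ∃ k, x = k + 1 := ⟨x - 1, by omega⟩
  have h1 : 2 ^ (m + 1) - 2 = 2 * (2 ^ m - 1) := by
    have := Nat.one_le_two_pow (n := m)
    rw [pow_succ]
    omega
  rw [h1, Nat.testBit_succ, Nat.mul_div_cancel_left _ (by norm_num), Nat.testBit_two_pow_sub_one,
    decide_eq_true (by omega)]

theorem no_rx {L q p M F n : ℕ} {T : List (ℕ × ℕ × ℕ × ℕ)} (hT : ∀ e ∈ T, okE L e = true)
    (hL : 16 * q < L) (hp : p.Prime) (hpq : p ∣ q) (hM : ∃ k, M = p ^ k) (hM1 : M ≠ 1) (hMq : M ∣ 4 * q)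
    (hF : okm M F = true) (hn : 16 * q < n * n) (hrow : ∀ a < n, row T q p M F n a = true)
    {A B A₁ B₁ : ℤ} (hW : W2 q A B) (hW₁ : W2 q A₁ B₁) (ho : ¬ (p : ℤ) ∣ B)
    (ho₁ : ¬ (p : ℤ) ∣ B₁) : ¬ Rx q A B A₁ B₁ := by
  rintro ⟨⟨g1, g2, g3, -⟩, ⟨g1', -, -, -⟩, N, M', w, hN, hM', hw, hz⟩
  obtain ⟨a, c, D, y, h⟩ := nt hW
  obtain ⟨a1, c1, x, y1, h1⟩ := nt hW₁
  have lt_n : ∀ {b : ℕ}, b * b ≤ 16 * q → b < n := by
    intro b hb
    by_contra hc
    push Not at hc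
    have := Nat.mul_le_mul hc hc
    omega
  have hcp : ∀ {B : ℤ} {c : ℕ}, (c : ℤ) = B + 4 * q → ¬ (p : ℤ) ∣ B → ¬ p ∣ c := by
    intro B c hc ho hd
    refine ho ?_
    have e : B = c - 4 * q := by rw [hc]; ring
    rw [e]
    exact dvd_sub (Int.natCast_dvd_natCast.2 hd)
      (Dvd.dvd.mul_left (Int.natCast_dvd_natCast.2 hpq) 4)
  have cp := hcp h.hc ho
  have cp1 := hcp h1.hc ho₁
  -- the row
  have r1 := hrow a (lt_n h.w1)
  unfold row row' at r1
  rw [Bool.and_eq_true, Nat.ble_eq, allr_iff] at r1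
  obtain ⟨r1, r2⟩ := r1
  obtain ⟨lo, hlo⟩ : ∃ lo, lo = rt (Nat.mul (Nat.mul 4 q) (Nat.mul a a)) := ⟨_, rfl⟩
  rw [← hlo] at r1 r2
  have r1' : lo * lo ≤ 4 * q * (a * a) := r1
  have hlc : lo ≤ c := by
    by_contra hc
    push Not at hc
    have := Nat.mul_self_lt_mul_self_iff.2 hc
    have := h.w3
    omega
  have hhi : c ≤ (a * a + 16 * q) / 4 := by
    have := h.w2
    omega
  obtain ⟨k, hk⟩ := hM
  have hM0 : 0 < M := by
    rw [hk]
    exact pow_pos hp.pos k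
  have r3 := r2 (c % M) (Nat.mod_lt c hM0)
  -- the squares
  have eN : N.natAbs * N.natAbs = D * y1 := by
    have : ((N.natAbs * N.natAbs : ℕ) : ℤ) = ((D * y1 : ℕ) : ℤ) := by
      push_cast
      rw [← sq, sq_abs, hN, h.dd, h1.dp]
    exact_mod_cast this
  have eM : M'.natAbs * M'.natAbs = y * x := by
    have : ((M'.natAbs * M'.natAbs : ℕ) : ℤ) = ((y * x : ℕ) : ℤ) := by
      push_cast
      rw [← sq, sq_abs, hM', h.dp, h1.dd]
    exact_mod_cast this
  -- the filter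
  have hfil : tb F (Nat.mod D M) = true := by
    have hco : Nat.Coprime c1 M := by
      rw [hk]
      exact Nat.Coprime.pow_right k ((Nat.Prime.coprime_iff_not_dvd hp).2 cp1).symm
    obtain ⟨t, ht⟩ : ∃ t : ℕ, c1 * t ≡ 1 [MOD M] := by
      · obtain ⟨t, -, ht⟩ := Nat.exists_mul_mod_eq_one_of_coprime hco (by omega)
        refine ⟨t, ?_⟩
        unfold Nat.ModEq
        rw [ht, Nat.mod_eq_of_lt (by omega)]
    have hy1 : y1 ≡ c1 * c1 [MOD M] := by
      have e1 : y1 + 4 * q * (a1 * a1) = c1 * c1 := by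
        rw [h1.hy]
        exact Nat.sub_add_cancel h1.w3
      rw [← e1]
      have e2 : 4 * q * (a1 * a1) ≡ 0 [MOD M] :=
        (Nat.modEq_zero_iff_dvd).2 (Dvd.dvd.mul_right hMq _)
      exact (Nat.ModEq.add_left y1 e2).symm.trans (by rfl) |>.symm.symm
    have e3 : (N.natAbs * t) * (N.natAbs * t) ≡ D [MOD M] := by
      have e4 : (N.natAbs * t) * (N.natAbs * t) = D * (y1 * (t * t)) := by
        calc (N.natAbs * t) * (N.natAbs * t) = (N.natAbs * N.natAbs) * (t * t) := by ring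
          _ = D * (y1 * (t * t)) := by rw [eN]; ring
      rw [e4]
      have e5 : y1 * (t * t) ≡ 1 [MOD M] := by
        calc y1 * (t * t) ≡ c1 * c1 * (t * t) [MOD M] := Nat.ModEq.mul_right _ hy1
          _ = (c1 * t) * (c1 * t) := by ring
          _ ≡ 1 * 1 [MOD M] := Nat.ModEq.mul ht ht
          _ = 1 := by norm_num
      calc D * (y1 * (t * t)) ≡ D * 1 [MOD M] := Nat.ModEq.mul_left D e5
        _ = D := by ring
    have e6 := okm_sq hM0 hF (N.natAbs * t)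
    rw [(e3 : _ % M = _ % M)] at e6
    exact e6
  have hpM : p ∣ M := by
    rw [hk]
    refine dvd_pow_self p ?_
    rintro rfl
    rw [pow_zero] at hk
    exact hM1 hk
  have c0 : Nat.beq (Nat.mod (c % M) p) 0 = false := by
    rw [Bool.eq_false_iff]
    intro hc
    have h5 : c % M % p = 0 := (beq_iff _ _).1 hc
    rw [Nat.mod_mod_of_dvd c hpM] at h5
    exact cp (Nat.dvd_of_mod_eq_zero h5)
  have hdm := Nat.div_add_mod c M
  have hDM : Nat.mod (Nat.sub (Nat.add (Nat.mul a a) (Nat.mul 16 q)) (Nat.mul 4 (c % M))) M =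
      Nat.mod D M := by
    change (a * a + 16 * q - 4 * (c % M)) % M = D % M
    have e1 : a * a + 16 * q - 4 * (c % M) = D + M * (4 * (c / M)) := by
      have h5 := h.hD
      have h6 := h.w2
      have h7 : M * (4 * (c / M)) = 4 * (M * (c / M)) := by ring
      omega
    rw [e1, Nat.add_mul_mod_self_left]
  have hble : Nat.ble (c % M) (Nat.div (Nat.add (Nat.mul a a) (Nat.mul 16 q)) 4) = true := by
    rw [Nat.ble_eq]
    exact (Nat.mod_le c M).trans hhi
  rw [c0, cond_false, hDM, hfil, cond_true, hble, cond_true] at r3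
  unfold res at r3
  rw [allr_iff] at r3
  have hj0 : (lo - c % M) / M ≤ c / M := by
    have h5 : (lo - c % M) / M ≤ (c - c % M) / M := Nat.div_le_div_right (by omega)
    have h6 : (c - c % M) / M = c / M := by
      have : c - c % M = M * (c / M) := by omega
      rw [this, Nat.mul_div_cancel_left _ hM0]
    omega
  have hj1 : c / M ≤ ((a * a + 16 * q) / 4 - c % M) / M := by
    have h5 : (c - c % M) / M ≤ ((a * a + 16 * q) / 4 - c % M) / M :=
      Nat.div_le_div_right (by omega)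
    have h6 : (c - c % M) / M = c / M := by
      have : c - c % M = M * (c / M) := by omega
      rw [this, Nat.mul_div_cancel_left _ hM0]
    omega
  have r4 := r3 (c / M - (lo - c % M) / M) (by
    change _ < (((a * a + 16 * q) / 4 - c % M) / M - (lo - c % M) / M).succ
    omega)
  have ec : Nat.add (c % M) (Nat.mul M (Nat.add (Nat.div (Nat.sub lo (c % M)) M)
      (c / M - (lo - c % M) / M))) = c := by
    change c % M + M * ((lo - c % M) / M + (c / M - (lo - c % M) / M)) = c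
    rw [Nat.add_sub_cancel' hj0]
    omega
  rw [ec] at r4
  unfold ck at r4
  have eD : Nat.sub (Nat.add (Nat.mul a a) (Nat.mul 16 q)) (Nat.mul 4 c) = D := h.hD.symm
  have ey : Nat.sub (Nat.mul c c) (Nat.mul (Nat.mul 4 q) (Nat.mul a a)) = y := h.hy.symm
  rw [eD, ey] at r4
  clear r3
  rename' r4 => r3
  -- the candidates
  have hx16 : x < 16 * q + 1 := by
    have := h1.hD
    have := dle h1.w1 h1.w3
    omega
  have hxL : x < L := by omega
  have hx0 : x ≠ 0 := by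
    intro hx
    refine g1' ?_
    rw [h1.dd, hx]
    exact ⟨0, rfl⟩
  have hbit : (cand T y (Nat.sub (Nat.pow 2 (Nat.succ (Nat.mul 16 q))) 2)).testBit x = true := by
    refine cand_bit T hT _ y x M'.natAbs hxL eM.symm ?_
    exact s0_bit hx0 hx16
  unfold sv at r3
  rw [Bool.or_eq_true] at r3
  rcases r3 with r3 | r3
  · rw [(beq_iff _ _).1 r3, Nat.zero_testBit] at hbit
    exact Bool.false_ne_true hbit
  rw [Bool.or_eq_true] at r3
  rcases r3 with r3 | r3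
  · exact g1 (by rw [h.dd]; exact isq_ne r3)
  rw [Bool.or_eq_true] at r3
  rcases r3 with r3 | r3
  · exact g2 (by rw [h.dp]; exact isq_ne r3)
  rw [Bool.or_eq_true] at r3
  rcases r3 with r3 | r3
  · refine g3 ?_
    rw [h.dd, h.dp]
    have := isq_ne r3
    exact_mod_cast this
  have r4 := go_bit 200 _ r3 x hbit
  unfold px at r4
  rw [allr_iff] at r4
  have r5 := r4 a1 (lt_n h1.w1)
  unfold pt at r5
  have e1 : Nat.sub (Nat.add (Nat.mul a1 a1) (Nat.mul 16 q)) x = 4 * c1 := by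
    change a1 * a1 + 16 * q - x = 4 * c1
    have := h1.hD
    have := h1.w2
    omega
  rw [e1] at r5
  have e2 : Nat.beq (Nat.mod (4 * c1) 4) 0 = true := (beq_iff _ _).2 (Nat.mul_mod_right 4 c1)
  have e3 : Nat.div (4 * c1) 4 = c1 := Nat.mul_div_cancel_left c1 (by norm_num)
  rw [e2, cond_true, e3] at r5
  unfold pt2 at r5
  have c3 : Nat.beq (Nat.mod c1 p) 0 = false := by
    rw [Bool.eq_false_iff]
    intro hc
    exact cp1 (Nat.dvd_of_mod_eq_zero ((beq_iff _ _).1 hc))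
  have c4 : Nat.blt (Nat.mul c1 c1) (Nat.mul (Nat.mul 4 q) (Nat.mul a1 a1)) = false := by
    rw [Bool.eq_false_iff]
    intro hc
    rw [Nat.blt_eq] at hc
    have h4 : 4 * q * (a1 * a1) ≤ c1 * c1 := h1.w3
    exact absurd hc (not_lt.2 h4)
  have e4 : Nat.sub (Nat.mul c1 c1) (Nat.mul (Nat.mul 4 q) (Nat.mul a1 a1)) = y1 := h1.hy.symm
  rw [c3, cond_false, c4, cond_false, e4] at r5
  unfold pt3 at r5
  have e5 : Nat.mul D y1 = N.natAbs * N.natAbs := eN.symm
  rw [e5, fs_sq, cond_true, ← e5] at r5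
  exact pt4_no h h1 r5 N M' w hN hM' hw hz

end Pool.Agent.UN5.NRX
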