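import Pool.Agent.UN5.FLG
import Pool.Agent.GT2.LFN
import Pool.Agent.TJ4.SLP

/-!
# UN5: orthogonal slope vectors, a relation splits (helper88)
-/

set_option autoImplicit false

namespace Pool.Agent.UN5

open Pool.Agent.TJ2 Pool.Agent.TJ4

/-- sums over lists of orthogonal functions are orthogonal -/
theorem orth_list {Γ α : Type*} [Fintype Γ] (f : α → Γ → ℝ) (l₁ l₂ : List α)
    (h : ∀ z ∈ l₁, ∀ y ∈ l₂, ∑ κ, f z κ * f y κ = 0) :
    ∑ κ, (l₁.map fun a => f a κ).sum * (l₂.map fun a => f a κ).sum = 0 := by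
  induction l₁ with
  | nil => simp
  | cons z l ih =>
    have h1 := ih fun z hz => h z (List.mem_cons_of_mem _ hz)
    have h2 : ∑ κ, f z κ * (l₂.map fun a => f a κ).sum = 0 := by
      have h3 := h z List.mem_cons_self
      clear h ih h1
      induction l₂ with
      | nil => simp
      | cons y m ih =>
        have h4 := ih fun y hy => h3 y (List.mem_cons_of_mem _ hy)
        have h5 := h3 y List.mem_cons_self
        simp only [List.map_cons, List.sum_cons, mul_add, Finset.sum_add_distrib]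
        rw [h5, h4, add_zero]
    simp only [List.map_cons, List.sum_cons, add_mul, Finset.sum_add_distrib]
    rw [h2, h1, add_zero]

/-- A relation between the slope vectors splits. -/
theorem spl {q : ℕ} {v : AbsoluteValue Qb ℝ} (hq : IsPrimePow q) (hv : Ab q v) (l₁ l₂ : List Qb)
    (hne : ∀ z ∈ l₁, z ≠ 0)
    (h : ∀ z ∈ l₁, ∀ y ∈ l₂, (∀ σ : Qb ≃ₐ[ℚ] Qb, slp q v y σ = 0) ∨
      ∃ τ : Qb ≃ₐ[ℚ] Qb, τ y = y ∧ τ z = (q : Qb) / z)
    (hs : ∀ σ : Qb ≃ₐ[ℚ] Qb, (l₁.map fun a => slp q v a σ).sum +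
      (l₂.map fun a => slp q v a σ).sum = 0) (σ : Qb ≃ₐ[ℚ] Qb) :
    (l₁.map fun a => slp q v a σ).sum = 0 := by
  classical
  obtain ⟨-, -, -, hbar, -⟩ := t_SLP q v hq hv
  obtain ⟨L, hfd, hgal, hmem, hext⟩ := Pool.Agent.GT2.t_LFN (l₁ ++ l₂).toFinset
  choose ext hext using hext
  have := hfd
  have := hgal
  have : Normal ℚ L := hgal.to_normal
  haveI : Fintype (L ≃ₐ[ℚ] L) := AlgEquiv.fintype ℚ L
  have hm1 : ∀ z ∈ l₁, z ∈ L := fun z hz => hmem z (by simp [hz])
  have hm2 : ∀ z ∈ l₂, z ∈ L := fun z hz => hmem z (by simp [hz])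
  have hres : ∀ (τ : Qb ≃ₐ[ℚ] Qb) (x : L), ((τ.restrictNormal L x : L) : Qb) = τ (x : Qb) :=
    fun τ x => AlgEquiv.restrictNormal_commutes τ L x
  have orth : ∀ z ∈ l₁, ∀ y ∈ l₂,
      ∑ κ : L ≃ₐ[ℚ] L, slp q v z (ext κ) * slp q v y (ext κ) = 0 := by
    intro z hz y hy
    rcases h z hz y hy with h0 | ⟨τ, h1, h2⟩
    · exact Finset.sum_eq_zero fun κ _ => by rw [h0, mul_zero]
    have hzL : z ∈ L := hm1 z hz
    have hyL : y ∈ L := hm2 y hy
    have hqz : (q : Qb) / z ∈ L := div_mem (natCast_mem L q) hzL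
    have e1 : τ.restrictNormal L ⟨z, hzL⟩ = ⟨(q : Qb) / z, hqz⟩ := by
      apply Subtype.ext
      rw [hres]
      exact h2
    have e2 : τ.restrictNormal L ⟨y, hyL⟩ = ⟨y, hyL⟩ := by
      apply Subtype.ext
      rw [hres]
      exact h1
    have e3 : ∀ κ : L ≃ₐ[ℚ] L, ext (κ * τ.restrictNormal L) z = ext κ ((q : Qb) / z) := by
      intro κ
      have a1 := hext (κ * τ.restrictNormal L) ⟨z, hzL⟩
      have a2 := hext κ ⟨(q : Qb) / z, hqz⟩
      rw [AlgEquiv.mul_apply, e1] at a1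
      exact a1.trans a2.symm
    have e4 : ∀ κ : L ≃ₐ[ℚ] L, ext (κ * τ.restrictNormal L) y = ext κ y := by
      intro κ
      have a1 := hext (κ * τ.restrictNormal L) ⟨y, hyL⟩
      have a2 := hext κ ⟨y, hyL⟩
      rw [AlgEquiv.mul_apply, e2] at a1
      exact a1.trans a2.symm
    have e5 : ∀ κ : L ≃ₐ[ℚ] L, slp q v z (ext (κ * τ.restrictNormal L)) *
        slp q v y (ext (κ * τ.restrictNormal L)) = - (slp q v z (ext κ) * slp q v y (ext κ)) := by
      intro κ
      have b1 : slp q v z (ext (κ * τ.restrictNormal L)) = slp q v ((q : Qb) / z) (ext κ) := by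
        unfold slp
        rw [e3]
      have b2 : slp q v y (ext (κ * τ.restrictNormal L)) = slp q v y (ext κ) := by
        unfold slp
        rw [e4]
      rw [b1, b2, hbar z (hne z hz)]
      ring
    have e6 : ∑ κ : L ≃ₐ[ℚ] L, slp q v z (ext κ) * slp q v y (ext κ) =
        ∑ κ : L ≃ₐ[ℚ] L, - (slp q v z (ext κ) * slp q v y (ext κ)) := by
      rw [← Equiv.sum_comp (Equiv.mulRight (τ.restrictNormal L))]
      exact Finset.sum_congr rfl fun κ _ => e5 κ
    rw [Finset.sum_neg_distrib] at e6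
    linarith
  have h1 := orth_list (fun a (κ : L ≃ₐ[ℚ] L) => slp q v a (ext κ)) l₁ l₂ orth
  have h2 : ∑ κ : L ≃ₐ[ℚ] L, (l₁.map fun a => slp q v a (ext κ)).sum *
      (l₁.map fun a => slp q v a (ext κ)).sum = 0 := by
    have h3 : ∀ κ : L ≃ₐ[ℚ] L, (l₁.map fun a => slp q v a (ext κ)).sum *
        (l₁.map fun a => slp q v a (ext κ)).sum = - ((l₁.map fun a => slp q v a (ext κ)).sum *
        (l₂.map fun a => slp q v a (ext κ)).sum) := by
      intro κ
      have h4 := hs (ext κ)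
      have h5 : (l₂.map fun a => slp q v a (ext κ)).sum =
        - (l₁.map fun a => slp q v a (ext κ)).sum := by linarith
      rw [h5]
      ring
    rw [Finset.sum_congr rfl fun κ _ => h3 κ, Finset.sum_neg_distrib, h1, neg_zero]
  have h6 := (Finset.sum_eq_zero_iff_of_nonneg fun κ _ => mul_self_nonneg _).1 h2
    (σ.restrictNormal L) (Finset.mem_univ _)
  have h7 : (l₁.map fun a => slp q v a σ) =
      l₁.map fun a => slp q v a (ext (σ.restrictNormal L)) := by
    refine List.map_congr_left fun a ha => ?_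
    have a1 := hext (σ.restrictNormal L) ⟨a, hm1 a ha⟩
    rw [hres] at a1
    unfold slp
    rw [← (a1 : ext (σ.restrictNormal L) a = σ a)]
  rw [h7]
  exact mul_self_eq_zero.1 h6

end Pool.Agent.UN5
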