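import Pool.Agent.UN5.SPL
import Pool.Agent.WAG.AConv
import Pool.Agent.GT3.UNB
import Pool.Agent.GT2.PAR
import Pool.Agent.TJ2.WEI
import Pool.Agent.TJ4.EXV

/-!
# UN5: the union of two sets with the partner property (helper88)

`S₁ ⊆ FL q`: real Weil polynomials with all flips in the Galois group.  `S₂`: real Weil polynomials such that
`x ^ g h (x + q / x)` has less different roots than for all members of `S₁`.
-/

set_option autoImplicit false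

open Polynomial

namespace Pool.Agent.UN5

open Pool.Agent.TJ2 Pool.Agent.TJ4 Pool.Agent.GT3.UNTAux

/-- the roots of the members of `S` and the square roots of `q` -/
def G (q : ℕ) (S : Set ℤ[X]) (x : Qb) : Prop :=
  (∃ h ∈ S, x ∈ Om q h) ∨ x ^ 2 = (q : Qb)

theorem G_ne {q : ℕ} (hq : 1 ≤ q) {S : Set ℤ[X]} {x : Qb} (h : G q S x) : x ≠ 0 := by
  rcases h with ⟨h, -, hx⟩ | hx
  · exact hx.1
  · rintro rfl
    rw [zero_pow two_ne_zero] at hx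
    exact (Nat.cast_ne_zero.2 (by omega) : (q : Qb) ≠ 0) hx.symm

theorem wn_om {q : ℕ} (hq : 1 ≤ q) {h : ℤ[X]} (hh : h ∈ RW h.natDegree q) {x : Qb}
    (hx : x ∈ Om q h) : Wn q x := by
  obtain ⟨-, h2, -⟩ := t_OMB h.natDegree q h hq hh.1 rfl
  obtain ⟨h3, h4, -⟩ := h2 x hx
  obtain ⟨-, h5, -⟩ := h2 _ h3
  refine ⟨hx.1, h4, h5, fun ι => ?_⟩
  obtain ⟨-, h6, -⟩ := t_EMB h.natDegree q h hq hh x hx ι
  rw [h6, RCLike.norm_conj]

theorem wn_sq {q : ℕ} (hq : 1 ≤ q) {x : Qb} (hx : x ^ 2 = (q : Qb)) : Wn q x := by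
  have hq0 : (q : Qb) ≠ 0 := Nat.cast_ne_zero.2 (by omega)
  have hx0 : x ≠ 0 := by
    rintro rfl
    rw [zero_pow two_ne_zero] at hx
    exact hq0 hx.symm
  have e : (q : Qb) / x = x := by
    rw [← hx]
    field_simp
  have hi : IsIntegral ℤ x := by
    refine IsIntegral.of_pow (n := 2) (by norm_num) ?_
    rw [hx]
    have h1 : IsIntegral ℤ (algebraMap ℤ Qb (q : ℤ)) := isIntegral_algebraMap
    simpa using h1
  exact ⟨hx0, hi, by rw [e]; exact hi, fun ι => by rw [e]⟩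

theorem wn_G {q : ℕ} (hq : 1 ≤ q) {S : Set ℤ[X]} (hS : ∀ h ∈ S, h ∈ RW h.natDegree q) {x : Qb}
    (h : G q S x) : Wn q x := by
  rcases h with ⟨h, hh, hx⟩ | hx
  · exact wn_om hq (hS h hh) hx
  · exact wn_sq hq hx

/-- square roots of `q` have slope zero -/
theorem slp_sq {q : ℕ} {v : AbsoluteValue Qb ℝ} (hq : IsPrimePow q) (hv : Ab q v) {x : Qb}
    (hx : x ^ 2 = (q : Qb)) (σ : Qb ≃ₐ[ℚ] Qb) : slp q v x σ = 0 := by
  obtain ⟨-, -, -, hbar, -⟩ := t_SLP q v hq hv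
  have hq0 : (q : Qb) ≠ 0 := Nat.cast_ne_zero.2 hq.pos.ne'
  have hx0 : x ≠ 0 := by
    rintro rfl
    rw [zero_pow two_ne_zero] at hx
    exact hq0 hx.symm
  have e : (q : Qb) / x = x := by
    rw [← hx]
    field_simp
  have h1 := hbar x hx0 σ
  rw [e] at h1
  linarith

/-- the second alternative in `Adm` -/
def St (q : ℕ) (S : Set ℤ[X]) (z : ℂ) : Prop :=
  ∃ N : ℕ, 1 ≤ N ∧ ∃ h ∈ S, ∃ r : ℂ, r ≠ 0 ∧ aeval (r + q / r) h = 0 ∧ z ^ N = r ^ N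

theorem root_lift (ι : Qb →+* ℂ) {q : ℕ} (hq : 1 ≤ q) {h : ℤ[X]} (hm : h.Monic) {r : ℂ}
    (hr : r ≠ 0) (h0 : aeval (r + q / r) h = 0) : ∃ x : Qb, ι x = r ∧ x ∈ Om q h := by
  obtain ⟨w1, -, w3, -⟩ := t_WEI t_OMB q h hq hm
  have h1 := AlmostAll.weil_zero q h r hr h0
  have h2 : ((weil q h).map (Int.castRingHom ℂ)).IsRoot r := by
    rw [Polynomial.IsRoot.def, Polynomial.eval_map]
    exact h1
  obtain ⟨x, hx, hx'⟩ := JD_root ι _ w1 r h2
  exact ⟨x, hx, (w3 x).1 hx'⟩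

theorem lift_st (ι : Qb →+* ℂ) {q : ℕ} (hq : 1 ≤ q) {S : Set ℤ[X]}
    (hS : ∀ h ∈ S, h ∈ RW h.natDegree q) {z : ℂ} (hz : St q S z) :
    ∃ x : Qb, (∃ h ∈ S, x ∈ Om q h) ∧ ∃ N : ℕ, 1 ≤ N ∧ z ^ N = (ι x) ^ N := by
  obtain ⟨N, hN, h, hh, r, hr, h0, e⟩ := hz
  obtain ⟨x, hx, hx'⟩ := root_lift ι hq (hS h hh).1 hr h0
  exact ⟨x, ⟨h, hh, hx'⟩, N, hN, by rw [hx, e]⟩

theorem lift_adm (ι : Qb →+* ℂ) {q : ℕ} (hq : 1 ≤ q) {S : Set ℤ[X]}
    (hS : ∀ h ∈ S, h ∈ RW h.natDegree q) {z : ℂ} (hz : AlmostAll.Adm q S z) :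
    ∃ x : Qb, G q S x ∧ ∃ N : ℕ, 1 ≤ N ∧ z ^ N = (ι x) ^ N := by
  obtain ⟨N, hN, h | ⟨h, hh, r, hr, h0, e⟩⟩ := hz
  · obtain ⟨ρ, hρ⟩ := IsAlgClosed.exists_pow_nat_eq (q : Qb) (n := 2) (by norm_num)
    refine ⟨ρ, Or.inr hρ, 2 * N, by omega, ?_⟩
    rw [h, pow_mul, ← map_pow, hρ, map_natCast]
  · obtain ⟨x, hx, N', hN', e'⟩ := lift_st ι hq hS ⟨N, hN, h, hh, r, hr, h0, e⟩
    exact ⟨x, Or.inl hx, N', hN', e'⟩

theorem lift_list (ι : Qb →+* ℂ) (P : ℂ → Prop) (Q : Qb → Prop)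
    (h : ∀ z, P z → ∃ x : Qb, Q x ∧ ∃ N : ℕ, 1 ≤ N ∧ z ^ N = (ι x) ^ N) (l : List ℂ)
    (hl : ∀ z ∈ l, P z) : ∃ (o : List Qb) (M : ℕ), 1 ≤ M ∧ o.length = l.length ∧
      (∀ y ∈ o, Q y) ∧ l.prod ^ M = (ι o.prod) ^ M := by
  induction l with
  | nil => exact ⟨[], 1, le_rfl, rfl, by simp, by simp⟩
  | cons z l ih =>
    obtain ⟨o, M, hM, hlen, ho, hp'⟩ := ih fun y hy => hl y (List.mem_cons_of_mem _ hy)
    obtain ⟨x, hx, N, hN, hz⟩ := h z (hl z List.mem_cons_self)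
    refine ⟨x :: o, M * N, Nat.mul_pos hM hN, by rw [List.length_cons, List.length_cons, hlen],
      ?_, ?_⟩
    · intro y hy
      rcases List.mem_cons.1 hy with rfl | hy
      · exact hx
      · exact ho y hy
    · have e1 : z ^ (M * N) = (ι x) ^ (M * N) := by
        rw [mul_comm, pow_mul, hz, ← pow_mul]
      have e2 : l.prod ^ (M * N) = (ι o.prod) ^ (M * N) := by
        rw [pow_mul, hp', ← pow_mul]
      rw [List.prod_cons, mul_pow, e1, e2, List.prod_cons, map_mul, mul_pow]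

/-- sum of slopes zero: a power of the product is a power of `q` -/
theorem uni' {q : ℕ} {v : AbsoluteValue Qb ℝ} (hq : IsPrimePow q) (hv : Ab q v) (l : List Qb)
    (hl : ∀ a ∈ l, Wn q a)
    (hs : ∀ σ : Qb ≃ₐ[ℚ] Qb, (l.map fun a => slp q v a σ).sum = 0) :
    ∃ N : ℕ, 1 ≤ N ∧ l.prod ^ (2 * N) = ((q : Qb) ^ l.length) ^ N := by
  obtain ⟨N, hN, h1⟩ := uni t_SLP t_LOC q v hq hv l hl hs
  refine ⟨N, hN, ?_⟩
  have h2 := prod_mul (q := q) l fun a ha => (hl a ha).ne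
  calc l.prod ^ (2 * N) = l.prod ^ N * l.prod ^ N := by ring
    _ = l.prod ^ N * ((l.map fun a => (q : Qb) / a).prod) ^ N := by rw [← h1]
    _ = ((q : Qb) ^ l.length) ^ N := by rw [← mul_pow, h2]

/-- the sum of the slopes for a multiplicative relation -/
theorem sum_zero {q : ℕ} {v : AbsoluteValue Qb ℝ} (hq : IsPrimePow q) (hv : Ab q v) (l : List Qb)
    (hl : ∀ a ∈ l, a ≠ 0) {K : ℕ} (hK : 1 ≤ K) (h : l.prod ^ (2 * K) = ((q : Qb) ^ l.length) ^ K)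
    (σ : Qb ≃ₐ[ℚ] Qb) : (l.map fun a => slp q v a σ).sum = 0 := by
  obtain ⟨hq0, hq1, -, -, -⟩ := t_SLP q v hq hv
  have hlog : Real.log (v (q : Qb)) < 0 := Real.log_neg hq0 hq1
  obtain ⟨h1, h2⟩ := Pool.Agent.GT2.PARAux.sum_F q v σ l hl
  have e : (l.map fun a => slp q v a σ) = l.map fun y => Pool.Agent.GT2.F q v (σ y) := rfl
  rw [e, h2]
  have h4 := congrArg (fun y => Real.log (v (σ y))) h
  simp only [map_pow, map_natCast, Real.log_pow] at h4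
  have hK' : (K : ℝ) ≠ 0 := by exact_mod_cast (by omega : K ≠ 0)
  have h5 : 2 * Real.log (v (σ l.prod)) = l.length * Real.log (v (q : Qb)) := by
    apply mul_left_cancel₀ hK'
    push_cast at h4
    linarith
  have h6 : 2 * (Real.log (v (σ l.prod)) / Real.log (v (q : Qb))) = l.length := by
    rw [← mul_div_assoc, h5, mul_div_assoc, div_self hlog.ne, mul_one]
  rw [h6, sub_self]

/-- the flips -/
theorem flip {q : ℕ} (hq : 1 ≤ q) {h h' : ℤ[X]} (hh : h ∈ FL q) (hh' : h'.Monic)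
    (hlt : (Om q h').ncard < (Om q h).ncard) {z y : Qb} (hz : z ∈ Om q h) (hy : y ∈ Om q h') :
    ∃ τ : Qb ≃ₐ[ℚ] Qb, τ y = y ∧ τ z = (q : Qb) / z := by
  have hq0 : (q : Qb) ≠ 0 := Nat.cast_ne_zero.2 (by omega)
  obtain ⟨f1, f2, f3, -⟩ := t_OMB h'.natDegree q h' hq hh' rfl
  obtain ⟨g1, g2, g3, -⟩ := t_OMB h.natDegree q h hq hh.2.1.1 rfl
  have hbb : ∀ x : Qb, (q : Qb) / ((q : Qb) / x) = x := by
    intro x
    by_cases hx : x = 0
    · rw [hx, div_zero, div_zero]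
    · field_simp
  have hbe : ∀ (g : Qb ≃ₐ[ℚ] Qb) (x : Qb), g • ((q : Qb) / x) = (q : Qb) / (g • x) := by
    intro g x
    rw [AlgEquiv.smul_def, AlgEquiv.smul_def, map_div₀, map_natCast]
  obtain ⟨g, h1, h2⟩ := flg (Γ := Qb ≃ₐ[ℚ] Qb) (bar := fun x : Qb => (q : Qb) / x) hbb hbe
    (Z := Om q h) (Y := Om q h') hh.2.2.1 hh.2.2.2.1 (fun g a ha => g3 a ha g)
    (fun a ha => (g2 a ha).1) (fun a ha e => by
      have ha0 : a ≠ 0 := ha.1
      have e2 : (q : Qb) = a * a := by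
        have e' : (q : Qb) / a = a := e
        rwa [div_eq_iff ha0] at e'
      refine hh.2.2.2.2 a ha 1 le_rfl ?_
      rw [pow_one, mul_one, e2, sq]) f1 (fun g y hy => f3 y hy g) hlt hz hy
  exact ⟨g, h1, h2⟩

/-- A multiplicative relation splits. -/
theorem split {q : ℕ} (hq : IsPrimePow q) {S₁ S₂ : Set ℤ[X]}
    (k1 : S₁ ⊆ FL q) (k2 : ∀ h ∈ S₂, h ∈ RW h.natDegree q)
    (hlt : ∀ h ∈ S₁, ∀ h' ∈ S₂, (Om q h').ncard < (Om q h).ncard) (l₁ l₂ : List ℂ)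
    (hl₁ : ∀ z ∈ l₁, St q S₁ z) (hl₂ : ∀ z ∈ l₂, AlmostAll.Adm q S₂ z) {N : ℕ} (hN : 1 ≤ N)
    (hr : (l₁.prod * l₂.prod) ^ (2 * N) = ((q : ℂ) ^ (l₁.length + l₂.length)) ^ N) :
    ∃ N' : ℕ, 1 ≤ N' ∧ l₁.prod ^ (2 * N') = ((q : ℂ) ^ l₁.length) ^ N' ∧
      l₂.prod ^ (2 * N') = ((q : ℂ) ^ l₂.length) ^ N' := by
  have hq1 : 1 ≤ q := hq.pos
  have hq0 : (q : ℂ) ≠ 0 := Nat.cast_ne_zero.2 (by omega)
  obtain ⟨v, hv⟩ := t_EXV q hq
  obtain ⟨ι⟩ := JD_emb ℂ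
  have k1' : ∀ h ∈ S₁, h ∈ RW h.natDegree q := fun h hh => (k1 hh).2.1
  obtain ⟨o₁, M₁, hM₁, len₁, ho₁, e₁⟩ := lift_list ι (St q S₁) (fun x => ∃ h ∈ S₁, x ∈ Om q h)
    (fun z hz => lift_st ι hq1 k1' hz) l₁ hl₁
  obtain ⟨o₂, M₂, hM₂, len₂, ho₂, e₂⟩ := lift_list ι (AlmostAll.Adm q S₂) (G q S₂)
    (fun z hz => lift_adm ι hq1 k2 hz) l₂ hl₂
  have w₁ : ∀ a ∈ o₁, Wn q a := fun a ha => by
    obtain ⟨h, hh, hx⟩ := ho₁ a ha
    exact wn_om hq1 (k1' h hh) hx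
  have w₂ : ∀ a ∈ o₂, Wn q a := fun a ha => wn_G hq1 k2 (ho₂ a ha)
  -- the relation in `Qb`
  have hQ : (o₁ ++ o₂).prod ^ (2 * (N * M₁ * M₂)) =
      ((q : Qb) ^ (o₁ ++ o₂).length) ^ (N * M₁ * M₂) := by
    apply ι.injective
    rw [map_pow, map_pow, map_pow, map_natCast, List.prod_append, map_mul, List.length_append,
      len₁, len₂, mul_pow]
    have a1 : (ι o₁.prod) ^ (2 * (N * M₁ * M₂)) = l₁.prod ^ (2 * (N * M₁ * M₂)) := by
      have : 2 * (N * M₁ * M₂) = M₁ * (2 * N * M₂) := by ring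
      rw [this, pow_mul, ← e₁, ← pow_mul]
    have a2 : (ι o₂.prod) ^ (2 * (N * M₁ * M₂)) = l₂.prod ^ (2 * (N * M₁ * M₂)) := by
      have : 2 * (N * M₁ * M₂) = M₂ * (2 * N * M₁) := by ring
      rw [this, pow_mul, ← e₂, ← pow_mul]
    rw [a1, a2, ← mul_pow]
    have : 2 * (N * M₁ * M₂) = 2 * N * (M₁ * M₂) := by ring
    rw [this, pow_mul, hr, ← pow_mul]
    congr 1
    ring
  have hne : ∀ a ∈ o₁ ++ o₂, a ≠ 0 := by
    intro a ha
    rcases List.mem_append.1 ha with ha | ha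
    · exact (w₁ a ha).ne
    · exact (w₂ a ha).ne
  have hK : 1 ≤ N * M₁ * M₂ := Nat.mul_pos (Nat.mul_pos hN hM₁) hM₂
  have hs : ∀ σ : Qb ≃ₐ[ℚ] Qb, (o₁.map fun a => slp q v a σ).sum +
      (o₂.map fun a => slp q v a σ).sum = 0 := by
    intro σ
    have := sum_zero hq hv (o₁ ++ o₂) hne hK hQ σ
    rwa [List.map_append, List.sum_append] at this
  have hs₁ := spl hq hv o₁ o₂ (fun z hz => (w₁ z hz).ne) (by
    intro z hz y hy
    by_cases hyq : y ^ 2 = (q : Qb)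
    · exact Or.inl (slp_sq hq hv hyq)
    · right
      obtain ⟨h, hh, hzh⟩ := ho₁ z hz
      rcases ho₂ y hy with ⟨h', hh', hyh⟩ | h0
      · exact flip hq1 (k1 hh) (k2 h' hh').1 (hlt h hh h' hh') hzh hyh
      · exact absurd h0 hyq) hs
  have hs₂ : ∀ σ : Qb ≃ₐ[ℚ] Qb, (o₂.map fun a => slp q v a σ).sum = 0 := by
    intro σ
    have := hs σ
    rwa [hs₁ σ, zero_add] at this
  obtain ⟨N₁, hN₁, r₁⟩ := uni' hq hv o₁ w₁ hs₁
  obtain ⟨N₂, hN₂, r₂⟩ := uni' hq hv o₂ w₂ hs₂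
  have b1 : l₁.prod ^ (2 * (N₁ * M₁)) = ((q : ℂ) ^ l₁.length) ^ (N₁ * M₁) := by
    have e : 2 * (N₁ * M₁) = M₁ * (2 * N₁) := by ring
    rw [e, pow_mul, e₁, ← pow_mul, mul_comm M₁, pow_mul, ← map_pow, r₁, map_pow, map_pow,
      map_natCast, len₁, ← pow_mul ((q : ℂ) ^ l₁.length)]
  have b2 : l₂.prod ^ (2 * (N₂ * M₂)) = ((q : ℂ) ^ l₂.length) ^ (N₂ * M₂) := by
    have e : 2 * (N₂ * M₂) = M₂ * (2 * N₂) := by ring
    rw [e, pow_mul, e₂, ← pow_mul, mul_comm M₂, pow_mul, ← map_pow, r₂, map_pow, map_pow,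
      map_natCast, len₂, ← pow_mul ((q : ℂ) ^ l₂.length)]
  refine ⟨(N₁ * M₁) * (N₂ * M₂), Nat.mul_pos (Nat.mul_pos hN₁ hM₁) (Nat.mul_pos hN₂ hM₂), ?_, ?_⟩
  · rw [← mul_assoc, pow_mul, b1, ← pow_mul]
  · rw [mul_comm (N₁ * M₁) (N₂ * M₂), ← mul_assoc, pow_mul, b2, ← pow_mul]

/-- the partner property is inherited by subsets -/
theorem par_mono {q : ℕ} {Λ Λ' : ℂ → Prop} (h : AlmostAll.Par q Λ') (hs : ∀ z, Λ z → Λ' z) :
    AlmostAll.Par q Λ :=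
  fun z l hz hl j N hN hj hr => h z l (hs z hz) (fun y hy => hs y (hl y hy)) j N hN hj hr

theorem adm_mono {q : ℕ} {S S' : Set ℤ[X]} (h : S ⊆ S') {z : ℂ} (hz : AlmostAll.Adm q S z) :
    AlmostAll.Adm q S' z := by
  obtain ⟨N, hN, h1 | ⟨f, hf, h2⟩⟩ := hz
  · exact ⟨N, hN, Or.inl h1⟩
  · exact ⟨N, hN, Or.inr ⟨f, h hf, h2⟩⟩

theorem adm_union {q : ℕ} {S S' : Set ℤ[X]} {z : ℂ} (hz : AlmostAll.Adm q (S ∪ S') z) :
    St q S z ∨ AlmostAll.Adm q S' z := by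
  obtain ⟨N, hN, h1 | ⟨f, hf | hf, h2⟩⟩ := hz
  · exact Or.inr ⟨N, hN, Or.inl h1⟩
  · obtain ⟨r, a, b, c⟩ := h2
    exact Or.inl ⟨N, hN, f, hf, r, a, b, c⟩
  · exact Or.inr ⟨N, hN, Or.inr ⟨f, hf, h2⟩⟩

theorem St.adm {q : ℕ} {S : Set ℤ[X]} {z : ℂ} (hz : St q S z) : AlmostAll.Adm q S z := by
  obtain ⟨N, hN, h2⟩ := hz
  exact ⟨N, hN, Or.inr h2⟩

/-- members of the first set are not supersingular -/
theorem St.ns {q : ℕ} (hq : 1 ≤ q) {S : Set ℤ[X]} (hS : S ⊆ FL q) {z : ℂ} (hz : St q S z) {M : ℕ}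
    (hM : 1 ≤ M) : z ^ (2 * M) ≠ (q : ℂ) ^ M := by
  intro e
  obtain ⟨ι⟩ := JD_emb ℂ
  obtain ⟨x, ⟨h, hh, hx⟩, N, hN, hz'⟩ := lift_st ι hq (fun h hh => (hS hh).2.1) hz
  refine (hS hh).2.2.2.2 x hx (M * N) (Nat.mul_pos hM hN) ?_
  apply ι.injective
  rw [map_pow, map_pow, map_natCast]
  have e1 : 2 * (M * N) = N * (2 * M) := by ring
  rw [e1, pow_mul, ← hz', ← pow_mul, mul_comm N, pow_mul, e, ← pow_mul]

/-- the number of the members of the first set in a relation is even -/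
theorem even_len {q : ℕ} (hq : 1 ≤ q) {S : Set ℤ[X]} (hS : S ⊆ FL q)
    (hP : AlmostAll.Par q (AlmostAll.Adm q S)) (l : List ℂ) (hl : ∀ z ∈ l, St q S z) {N : ℕ}
    (hN : 1 ≤ N) (hr : l.prod ^ (2 * N) = ((q : ℂ) ^ l.length) ^ N) : l.length % 2 = 0 := by
  by_contra hc
  obtain ⟨s, hs⟩ := IsAlgClosed.exists_pow_nat_eq (q : ℂ) (n := 2) (by norm_num)
  have hs' : AlmostAll.Adm q S s := ⟨1, le_rfl, Or.inl (by rw [mul_one, hs, pow_one])⟩
  obtain ⟨y, hy, M, hM, e⟩ := hP s l hs' (fun y hy => (hl y hy).adm) ((l.length + 1) / 2) (2 * N)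
    (by omega) (by omega) (by
      rw [mul_pow, hr, pow_mul, hs, ← mul_pow, ← pow_succ', ← pow_mul, ← pow_mul]
      congr 1
      have : (l.length + 1) / 2 * (2 * N) = ((l.length + 1) / 2 * 2) * N := by ring
      rw [this]
      congr 1
      omega)
  refine (hl y hy).ns hq hS hM (M := M) ?_
  have h1 : (s * y) ^ (2 * M) = ((q : ℂ) ^ M) ^ 2 := by
    rw [mul_comm 2 M, pow_mul, e]
  rw [mul_pow, pow_mul, hs] at h1
  have hq0 : ((q : ℂ)) ^ M ≠ 0 := pow_ne_zero _ (Nat.cast_ne_zero.2 (by omega))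
  apply mul_left_cancel₀ hq0
  rw [h1]
  ring

/-- The union theorem. -/
theorem union {q : ℕ} (hq : IsPrimePow q) {S₁ S₂ : Set ℤ[X]}
    (hFL : S₁ ⊆ FL q) (h2 : ∀ h ∈ S₂, h ∈ RW h.natDegree q)
    (hlt : ∀ h ∈ S₁, ∀ h' ∈ S₂, (Om q h').ncard < (Om q h).ncard) :
    AlmostAll.Par q (AlmostAll.Adm q (S₁ ∪ S₂)) ↔
      AlmostAll.Par q (AlmostAll.Adm q S₁) ∧ AlmostAll.Par q (AlmostAll.Adm q S₂) := by
  classical
  have hq1 : 1 ≤ q := hq.pos
  have hq0 : (q : ℂ) ≠ 0 := Nat.cast_ne_zero.2 (by omega)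
  constructor
  · exact fun h => ⟨par_mono h fun z => adm_mono Set.subset_union_left,
      par_mono h fun z => adm_mono Set.subset_union_right⟩
  rintro ⟨P1, P2⟩ z l hz hl j N hN hj hr
  -- the two parts of the list
  have hperm := List.filter_append_perm (fun y => decide (St q S₁ y)) l
  set l₁ := l.filter (fun y => decide (St q S₁ y)) with hl₁
  set l₂ := l.filter (fun y => !decide (St q S₁ y)) with hl₂
  have m1 : ∀ y ∈ l₁, St q S₁ y := fun y hy => by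
    rw [hl₁, List.mem_filter] at hy
    exact of_decide_eq_true hy.2
  have m1' : ∀ y ∈ l₁, y ∈ l := fun y hy => by
    rw [hl₁, List.mem_filter] at hy
    exact hy.1
  have m2' : ∀ y ∈ l₂, y ∈ l := fun y hy => by
    rw [hl₂, List.mem_filter] at hy
    exact hy.1
  have m2 : ∀ y ∈ l₂, AlmostAll.Adm q S₂ y := fun y hy => by
    rcases adm_union (hl y (m2' y hy)) with h | h
    · rw [hl₂, List.mem_filter] at hy
      simp [h] at hy
    · exact h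
  have hprod : l₁.prod * l₂.prod = l.prod := by
    rw [← List.prod_append]
    exact hperm.prod_eq
  have hlen : l₁.length + l₂.length = l.length := by
    rw [← List.length_append]
    exact hperm.length_eq
  have hr2 : (z * l.prod) ^ (2 * N) = ((q : ℂ) ^ (l.length + 1)) ^ N := by
    rw [hj, mul_comm 2 N, pow_mul, hr, ← pow_mul, ← pow_mul, ← pow_mul]
    congr 1
    ring
  rcases adm_union hz with hz | hz
  · -- `z` in the first set
    obtain ⟨N', hN', r1, -⟩ := split hq hFL h2 hlt (z :: l₁) l₂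
      (fun y hy => by
        rcases List.mem_cons.1 hy with rfl | hy
        · exact hz
        · exact m1 y hy) m2 hN (by
      rw [List.prod_cons, mul_assoc, hprod, hr2, List.length_cons]
      congr 2
      omega)
    have hev := even_len hq1 hFL P1 (z :: l₁) (fun y hy => by
        rcases List.mem_cons.1 hy with rfl | hy
        · exact hz
        · exact m1 y hy) hN' r1
    rw [List.length_cons] at hev r1
    obtain ⟨y, hy, M, hM, e⟩ := P1 z l₁ hz.adm (fun y hy => (m1 y hy).adm)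
      ((l₁.length + 1) / 2) (2 * N') (by omega) (by omega) (by
        rw [← List.prod_cons, r1, ← pow_mul, ← pow_mul]
        congr 1
        have : (l₁.length + 1) / 2 * (2 * N') = ((l₁.length + 1) / 2 * 2) * N' := by ring
        rw [this]
        congr 1
        omega)
    exact ⟨y, m1' y hy, M, hM, e⟩
  · -- `z` in the second set
    obtain ⟨N', hN', r1, r2⟩ := split hq hFL h2 hlt l₁ (z :: l₂) m1
      (fun y hy => by
        rcases List.mem_cons.1 hy with rfl | hy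
        · exact hz
        · exact m2 y hy) hN (by
      have : l₁.prod * (z :: l₂).prod = z * l.prod := by
        rw [List.prod_cons, ← hprod]
        ring
      rw [this, hr2, List.length_cons]
      congr 2
      omega)
    have hev := even_len hq1 hFL P1 l₁ m1 hN' r1
    rw [List.length_cons] at r2
    obtain ⟨y, hy, M, hM, e⟩ := P2 z l₂ hz m2 ((l₂.length + 1) / 2) (2 * N') (by omega)
      (by omega) (by
        rw [← List.prod_cons, r2, ← pow_mul, ← pow_mul]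
        congr 1
        have : (l₂.length + 1) / 2 * (2 * N') = ((l₂.length + 1) / 2 * 2) * N' := by ring
        rw [this]
        congr 1
        omega)
    exact ⟨y, m2' y hy, M, hM, e⟩

end Pool.Agent.UN5
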